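import Pool.Agent.H12.S3.Fsx

/-!
# [H12 S3 FSC] `FS` does not depend on the places

* `cj_tE`: `(cjL L s).t v = s v * L.t v * (s v)⁻¹` for `v ∉ S0`. `fs_cj`: `FS` for `cjL L s`, `cjF Fr s` is `FS` for `L`, `Fr` if `s = 1` on `E`. `fib_cj`: the same for `Fib`.
-/

set_option autoImplicit false

open scoped NumberField
open IsDedekindDomain Filter Topology
open scoped Classical

noncomputable section

namespace H12.S3

open H38.ML H63.MA H38.BB H38.BG H57.PC H57.BRA H38.AS H77.WD H77.WE H77.GL H77.PC3 H77.S0T H77.FLD H77.PLF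
  H35.CF H35.UB H35.AC H51.PF H51.AC2 H51.F3 H24.RK H62.BL H86.AP

variable {p N : ℕ} {K : IntermediateField ℚ QBar} [NumberField K] {ζ : K} {D : RD0 K p ζ}
  {P : Type} [Group P]

theorem t_S0 (L : LDs D QBar) {v : Pl K} (hv : v ∈ D.S0) : L.t v = 1 := by
  unfold LDs.t
  rw [dif_neg (not_not.2 hv)]

theorem cj_t1 (L : LDs D QBar) (s : Pl K → Gal(QBar/K)) {v : Pl K} (h : s v = 1) :
    (cjL L s).t v = L.t v := by
  by_cases hv : v ∈ D.S0
  · rw [t_S0 _ hv, t_S0 _ hv]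
  · rw [cj_t L s hv, h, one_mul, inv_one, mul_one]

theorem cj_F1 {L : LDs D QBar} (Fr : FR L) (s : Pl K → Gal(QBar/K)) {v : Pl K} (h : s v = 1) :
    (cjF Fr s).F v = Fr.F v := by
  show s v * Fr.F v * (s v)⁻¹ = Fr.F v
  rw [h, one_mul, inv_one, mul_one]

theorem cj_F {L : LDs D QBar} (Fr : FR L) (s : Pl K → Gal(QBar/K)) (v : Pl K)
    (φ : Gal(QBar/K) →* P) : φ ((cjF Fr s).F v) = φ (s v) * φ (Fr.F v) * (φ (s v))⁻¹ := by
  show φ (s v * Fr.F v * (s v)⁻¹) = _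
  rw [map_mul, map_mul, map_inv]

theorem cj_ne (L : LDs D QBar) (s : Pl K → Gal(QBar/K)) {v : Pl K} (hv : v ∉ D.S0)
    (φ : Gal(QBar/K) →* P) : φ ((cjL L s).t v) = 1 ↔ φ (L.t v) = 1 := by
  rw [cj_t L s hv, map_mul, map_mul, map_inv, conj_eq_one_iff]

theorem cj_cj (L : LDs D QBar) (s : Pl K → Gal(QBar/K)) {v : Pl K} (hv : v ∉ D.S0)
    (φ : Gal(QBar/K) →* P) (g : P) : IsConj (φ ((cjL L s).t v)) g ↔ IsConj (φ (L.t v)) g := by
  have h : IsConj (φ (L.t v)) (φ ((cjL L s).t v)) := isConj_iff.2 ⟨φ (s v), by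
    rw [cj_t L s hv, map_mul, map_mul, map_inv]⟩
  exact ⟨h.trans, h.symm.trans⟩

private theorem fs_sub (L : LDs D QBar) (Fr : FR L) (Q : DP K QBar) (c : CL p N P)
    (φb φ' : Gal(QBar/K) →* P) {E : Finset (Pl K)} (s : Pl K → Gal(QBar/K))
    (hs : ∀ v ∈ E, s v = 1) (Y : ℝ) (φ : Gal(QBar/K) →* P) :
    φ ∈ FS (cjL L s) (cjF Fr s) Q c φb φ' E Y ↔ φ ∈ FS L Fr Q c φb φ' E Y := by
  refine and_congr Iff.rfl (and_congr Iff.rfl (and_congr Iff.rfl (and_congr Iff.rfl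
    (and_congr ?_ (and_congr ?_ ?_)))))
  · refine forall_congr' fun v => forall_congr' fun hv => exists_congr fun g =>
      and_congr Iff.rfl ?_
    rw [cj_t1 L s (hs v hv), cj_F1 Fr s (hs v hv)]
  · refine forall_congr' fun v => forall_congr' fun hv => forall_congr' fun _ =>
      imp_congr ?_ (and_congr Iff.rfl (exists_congr fun j => ?_))
    · exact not_congr (cj_ne L s hv φ)
    · exact cj_cj L s hv φ _
  · refine forall_congr' fun X => imp_congr (forall_congr' fun v => forall_congr' fun _ => ?_)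
      Iff.rfl
    constructor
    · rintro ⟨h1, h2, h3⟩
      exact ⟨h1, h2, fun h => h3 ((cj_ne L s h1 φ).2 h)⟩
    · rintro ⟨h1, h2, h3⟩
      exact ⟨h1, h2, fun h => h3 ((cj_ne L s h1 φ).1 h)⟩

theorem fs_cj (L : LDs D QBar) (Fr : FR L) (Q : DP K QBar) (c : CL p N P)
    (φb φ' : Gal(QBar/K) →* P) {E : Finset (Pl K)} (s : Pl K → Gal(QBar/K))
    (hs : ∀ v ∈ E, s v = 1) (Y : ℝ) :
    FS (cjL L s) (cjF Fr s) Q c φb φ' E Y = FS L Fr Q c φb φ' E Y :=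
  Set.ext fun φ => fs_sub L Fr Q c φb φ' s hs Y φ

theorem fib_cj {L : LDs D QBar} {c : CL p N P} {φb φ' : Gal(QBar/K) →* P} {E : Finset (Pl K)}
    (h : Fib L c φb φ' E) (s : Pl K → Gal(QBar/K)) : Fib (cjL L s) c φb φ' E :=
  ⟨h.ft, h.sj, h.gd, fun v hv hE => (cj_ne L s hv φb).2 (h.un v hv hE), fun v hv => by
    obtain ⟨j, hj⟩ := h.lab v hv
    exact ⟨j, (cj_cj L s (h.gd v hv).1 φb _).2 hj⟩, h.ft', h.eq⟩

end H12.S3
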