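import Pool.Agent.H12.S3.Defs
import Pool.Agent.H35.AC.Trv

/-!
# [H12 S3 FSX] basic facts about `FS`

* `t_in`, `unr_iff`, `tyc_iff`, `tyn_iff`: inertia and types in terms of `φ (t v)`.
* `fs_pu`: `FS ⊆ PU`. `fs_fin`: finite. `fs_syt`: `FS` for `E = ∅` is contained in `SYT`.
-/

set_option autoImplicit false

open scoped NumberField
open IsDedekindDomain Filter Topology
open scoped Classical

noncomputable section

namespace H12.S3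

open H38.ML H63.MA H38.BB H38.BG H57.PC H57.BRA H38.AS H77.WD H77.WE H77.GL H77.PC3 H77.S0T H77.FLD H77.PLF
  H35.CF H35.UB H35.AC H51.PF H51.AC2 H51.F3 H24.RK H62.BL H86.AP

variable {p N : ℕ} {K : IntermediateField ℚ QBar} [NumberField K] {ζ : K} {D : RD0 K p ζ}
  {P : Type} [Group P]

theorem t_in (L : LDs D QBar) {v : Pl K} (hv : v ∉ D.S0) : L.t v ∈ inr L v := by
  unfold inr LDs.t
  rw [dif_pos hv, dif_pos hv]
  exact (L.ld v hv).ht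

theorem unr_iff [Finite P] (hp : p.Prime) (hζ : IsPrimitiveRoot ζ p) (L : LDs D QBar)
    (hP : IsPGroup p P) (φ : Gal(QBar/K) →* P) (hφ : FT φ) {v : Pl K} (hv : v ∉ D.S0) :
    (∀ τ ∈ inr L v, φ τ = 1) ↔ φ (L.t v) = 1 :=
  ⟨fun h => h _ (t_in L hv), (H48.MF.ing_inr hp hζ L hv φ hφ fun τ _ => hP (φ τ)).2.2⟩

theorem tyc_iff [Finite P] (hp : p.Prime) (hζ : IsPrimitiveRoot ζ p) (L : LDs D QBar)
    (hP : IsPGroup p P) (c : CL p N P) (φ : Gal(QBar/K) →* P) (hφ : FT φ) (i : Fin N) (v : Pl K) :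
    TyC c L φ i v ↔ D.Gd v ∧ IsConj (φ (L.t v)) (c.g i) := by
  constructor
  · exact fun h => ⟨h.1, h.2.1⟩
  · rintro ⟨h1, h2⟩
    refine ⟨h1, h2, (H48.MF.ing_inr hp hζ L h1.1 φ hφ fun τ _ => hP (φ τ)).2.1 ?_⟩
    obtain ⟨g, hg⟩ := isConj_iff.1 h2.symm
    rw [← hg, conj_pow, c.pow i, mul_one, mul_inv_cancel]

theorem cj_one (c : CL p N P) {x : P} {i : Fin N} (h : IsConj x (c.g i)) : x ≠ 1 := by
  rintro rfl
  exact c.ne i (isConj_one_right.1 h)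

theorem tyn_iff [Finite P] (hp : p.Prime) (hζ : IsPrimitiveRoot ζ p) (L : LDs D QBar)
    (hP : IsPGroup p P) (c : CL p N P) (φ : Gal(QBar/K) →* P) (hφ : FT φ) (E : Finset (Pl K))
    (T : ℝ) (i : Fin N) (M : ℕ) : M ≤ tyn L c E T φ i ↔ ∃ s : Finset (Pl K), M ≤ s.card ∧
      ∀ v ∈ s, D.Gd v ∧ v ∉ E ∧ T < (nm v : ℝ) ∧ IsConj (φ (L.t v)) (c.g i) := by
  have hfin : {v : Pl K | v ∉ E ∧ T < (nm v : ℝ) ∧ TyC c L φ i v}.Finite := by
    refine (ram_finite hp D L φ hφ).subset ?_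
    rintro v ⟨-, -, h1, h2, -⟩
    exact ⟨h1.1, cj_one c h2⟩
  have hmem : ∀ v, v ∈ {v : Pl K | v ∉ E ∧ T < (nm v : ℝ) ∧ TyC c L φ i v} ↔
      (D.Gd v ∧ v ∉ E ∧ T < (nm v : ℝ) ∧ IsConj (φ (L.t v)) (c.g i)) := by
    intro v
    constructor
    · rintro ⟨h1, h2, h3, h4, -⟩
      exact ⟨h3, h1, h2, h4⟩
    · rintro ⟨h1, h2, h3, h4⟩
      exact ⟨h2, h3, (tyc_iff hp hζ L hP c φ hφ i v).2 ⟨h1, h4⟩⟩
  unfold tyn
  rw [Set.ncard_eq_toFinset_card _ hfin]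
  constructor
  · intro h
    exact ⟨hfin.toFinset, h, fun v hv => (hmem v).1 (hfin.mem_toFinset.1 hv)⟩
  · rintro ⟨s, h1, h2⟩
    exact h1.trans (Finset.card_le_card fun v hv => hfin.mem_toFinset.2 ((hmem v).2 (h2 v hv)))

theorem fs_pu [Finite P] (hp : p.Prime) (hζ : IsPrimitiveRoot ζ p) (L : LDs D QBar) (Fr : FR L)
    (Q : DP K QBar) (hP : IsPGroup p P) (c : CL p N P) (φb φ' : Gal(QBar/K) →* P)
    (E : Finset (Pl K)) (Y : ℝ) : FS L Fr Q c φb φ' E Y ⊆ PU L c E Y := by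
  rintro φ ⟨h1, h2, -, -, -, h6, h7⟩
  refine ⟨h1, h2, fun v hv hvE => ?_, fun X hX => ?_⟩
  · by_cases h : φ (L.t v) = 1
    · exact Or.inl ((unr_iff hp hζ L hP φ h1 hv).2 h)
    · obtain ⟨hg, j, hj⟩ := h6 v hv hvE h
      exact Or.inr ⟨j, (tyc_iff hp hζ L hP c φ h1 j v).2 ⟨hg, hj⟩⟩
  · exact h7 X fun v hv => ⟨(hX v hv).1, (hX v hv).2.1, fun h =>
      (hX v hv).2.2 ((unr_iff hp hζ L hP φ h1 (hX v hv).1).2 h)⟩

theorem fs_empty (L : LDs D QBar) (Fr : FR L) (Q : DP K QBar) (c : CL p N P)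
    (φb φ' : Gal(QBar/K) →* P) (E : Finset (Pl K)) {Y : ℝ} (hY : Y < 1) :
    FS L Fr Q c φb φ' E Y = ∅ := by
  rw [Set.eq_empty_iff_forall_notMem]
  rintro φ ⟨-, -, -, -, -, -, h⟩
  have h1 := h ∅ fun v hv => absurd hv (Finset.notMem_empty v)
  have h2 : nr (∅ : Finset (Pl K)) = 1 := by
    unfold nr
    rw [Finset.prod_empty]
  rw [h2] at h1
  linarith

theorem fs_fin [Finite P] (hp : p.Prime) (hζ : IsPrimitiveRoot ζ p) (L : LDs D QBar) (Fr : FR L)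
    (Q : DP K QBar) (hP : IsPGroup p P) (c : CL p N P) (φb φ' : Gal(QBar/K) →* P)
    (E : Finset (Pl K)) (Y : ℝ) : (FS L Fr Q c φb φ' E Y).Finite := by
  rcases lt_or_ge Y 1 with h | h
  · rw [fs_empty L Fr Q c φb φ' E h]
    exact Set.finite_empty
  · obtain ⟨_, _, -, -, htr⟩ := trv hp hζ hP L c
    exact (htr E Y h).1.subset (fs_pu hp hζ L Fr Q hP c φb φ' E Y)

theorem fs_syt [Finite P] (hp : p.Prime) (hζ : IsPrimitiveRoot ζ p) (L : LDs D QBar) (Fr : FR L)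
    (Q : DP K QBar) (hP : IsPGroup p P) (c : CL p N P) (φb φ' : Gal(QBar/K) →* P) (Y : ℝ) :
    FS L Fr Q c φb φ' ∅ Y ⊆ SYT L Q c (Tc c) φ' Y := by
  intro φ hφ
  have h := fs_pu hp hζ L Fr Q hP c φb φ' ∅ Y hφ
  exact ⟨hφ.1, hφ.2.1, hφ.2.2.2.1, fun v hv => h.2.2.1 v hv (Finset.notMem_empty v),
    fun X hX => h.2.2.2 X fun v hv => ⟨(hX v hv).1, Finset.notMem_empty v, (hX v hv).2⟩⟩

end H12.S3
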