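import Pool.Agent.H38.S3.Dsx

/-!
# [H12 S3 DSQ] the limit of the sum of the weights, from `EQ1` and D6

* `glp_mono`, `gpl_and`, `gpl_fin`: `Gpl` is a filter. `dsx`: `∑ wL = (l + o(1)) Y (log Y)^(N-1)`, `l = κ l₀ #CC #{y : b y = 1 on CC}`.
-/

set_option autoImplicit false

open scoped NumberField
open IsDedekindDomain Filter Topology
open scoped Classical

noncomputable section

namespace H12.S3.Q

open H38.ML H63.MA H38.BB H38.BG H57.PC H57.BRA H38.AS H77.WD H77.WE H77.GL H77.PC3 H77.S0T H77.FLD H77.PLF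
  H35.CF H35.UB H35.AC H51.PF H51.AC2 H51.F3 H24.RK H62.BL H86.AP H12.S3

section gp

variable {K : Type} [Field K] [NumberField K] {Ω : Type} [Field Ω] [Algebra K Ω] {ζ : K} {p : ℕ}

theorem glp_mono {D : RD0 K p ζ} {L : LDs D Ω} {Fr : FR L} {M M' C C₂ C' : ℕ} {Y : ℝ}
    (hY : 1 ≤ Y) (h : GLp p Fr M' C₂ C' Y) (hM : M ≤ M') (hC : C ≤ C₂) : GLp p Fr M C C' Y := by
  have h1 : Y ^ C ≤ Y ^ C₂ := pow_le_pow_right₀ hY hC
  exact fun H _ _ hH hHM φ T hT hn k hk x' x b hx hxC =>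
    h H hH (hHM.trans hM) φ T hT (hn.trans h1) k hk x' x b hx (hxC.trans h1)

theorem gpl_and {D : RD0 K p ζ} {L : LDs D Ω} {Fr : FR L} {E : Finset (Pl K)}
    {R R' : ℝ → (Pl K → Gal(Ω/K)) → Prop} (h : Gpl p Fr E R) (h' : Gpl p Fr E R') :
    Gpl p Fr E fun Y s => R Y s ∧ R' Y s := by
  obtain ⟨M, C, h⟩ := h
  obtain ⟨M', C₂, h'⟩ := h'
  refine ⟨max M M', max C C₂, fun C' => ?_⟩
  obtain ⟨Y₀, hY⟩ := h C'
  obtain ⟨Y₁, hY'⟩ := h' C'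
  refine ⟨max (max Y₀ Y₁) 1, fun Y hYY s hs hg => ?_⟩
  have h1 : 1 ≤ Y := (le_max_right _ _).trans hYY
  have h2 := (le_max_left _ _).trans hYY
  exact ⟨hY Y ((le_max_left _ _).trans h2) s hs (glp_mono h1 hg (le_max_left _ _) (le_max_left _ _)),
    hY' Y ((le_max_right _ _).trans h2) s hs
      (glp_mono h1 hg (le_max_right _ _) (le_max_right _ _))⟩

theorem gpl_fin {D : RD0 K p ζ} {L : LDs D Ω} {Fr : FR L} {E : Finset (Pl K)} {ι : Type}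
    (I : Finset ι) {R : ι → ℝ → (Pl K → Gal(Ω/K)) → Prop} (h : ∀ i, Gpl p Fr E (R i)) :
    Gpl p Fr E fun Y s => ∀ i ∈ I, R i Y s := by
  induction I using Finset.induction_on with
  | empty => exact ⟨0, 0, fun _ => ⟨0, fun Y _ s _ _ i hi => absurd hi (Finset.notMem_empty i)⟩⟩
  | insert a I _ ih =>
    obtain ⟨M, C, h1⟩ := gpl_and (h a) ih
    refine ⟨M, C, fun C' => ?_⟩
    obtain ⟨Y₀, h2⟩ := h1 C'
    refine ⟨Y₀, fun Y hY s hs hg i hi => ?_⟩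
    obtain ⟨h3, h4⟩ := h2 Y hY s hs hg
    rcases Finset.mem_insert.1 hi with rfl | hi
    · exact h3
    · exact h4 i hi

/-- `R` is used for large `Y` only -/
theorem gpl_ge {D : RD0 K p ζ} {L : LDs D Ω} {Fr : FR L} {E : Finset (Pl K)}
    {R R' : ℝ → (Pl K → Gal(Ω/K)) → Prop} (h : Gpl p Fr E R) (Y₁ : ℝ)
    (hR : ∀ Y, Y₁ ≤ Y → ∀ s, R Y s → R' Y s) : Gpl p Fr E R' := by
  obtain ⟨M, C, h⟩ := h
  refine ⟨M, C, fun C' => ?_⟩
  obtain ⟨Y₀, hY⟩ := h C'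
  exact ⟨max Y₀ Y₁, fun Y hYY s hs hg => hR Y ((le_max_right _ _).trans hYY) s
    (hY Y ((le_max_left _ _).trans hYY) s hs hg)⟩

end gp

theorem dsx {K : IntermediateField ℚ QBar} [NumberField K] {p N : ℕ} {ζ : K} (hp : p.Prime)
    (hM1 : MOne p K) (hζ : IsPrimitiveRoot ζ p) {P : Type} [Group P] [Fintype P]
    (hP : IsPGroup p P) (hN : 1 ≤ N) {D : RD0 K p ζ} {L : LDs D QBar} (Fr : FR L) (Q : DP K QBar)
    (c : CL p N P) {φb φ' : Gal(QBar/K) →* P} {E : Finset (Pl K)} (hF : Fib L c φb φ' E)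
    {κ₁ : ℕ} (hE : EQ1 L Fr Q c φb φ' E κ₁) (hG : GPU D QBar κ₁) :
    ∃ (l : ℝ) (M₁ : ℕ), 0 ≤ l ∧ (φ' = φb → 0 < l) ∧ ∀ M : ℕ, M₁ ≤ M → ∀ ε : ℝ, 0 < ε → ε < 1 →
      ∀ δ : ℝ, 0 < δ → Gpl p Fr E fun Y s =>
        |(∑ᶠ φ ∈ FS L Fr Q c φb φ' E Y, wL c (cjF Fr s) φb E M (T0 ε Y) Y φ) -
          l * (Y * Real.log Y ^ (N - 1))| ≤ δ * (Y * Real.log Y ^ (N - 1)) := by
  obtain ⟨G, _, _, r, φG, H, Yv, _, b, κ, M₁, h1, h2, h3, h4, h5, h6, h7⟩ := hE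
  obtain ⟨l₀, hl₀, hd⟩ := H38.S3.d6 hN hp hM1 hζ hP κ₁ hG L Fr c φb hF.sj E r φG h1 h2 h3 h4 H b
  obtain ⟨m, hm⟩ : ∃ m : ℝ, m = Nat.card (H38.S3.CCh H) * (Finset.univ.filter fun y =>
      ∀ z ∈ H38.S3.CCh H, b y z = 1).card := ⟨_, rfl⟩
  have hm0 : 0 ≤ m := by rw [hm]; positivity
  refine ⟨κ * (l₀ * m), M₁, by positivity, fun he => ?_, fun M hM ε hε hε1 δ hδ => ?_⟩
  · obtain ⟨y, hy⟩ := h6 he
    have h8 : 0 < m := by
      rw [hm]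
      refine mul_pos (by exact_mod_cast Nat.card_pos) ?_
      refine Nat.cast_pos.2 (Finset.card_pos.2 ⟨y, ?_⟩)
      rw [Finset.mem_filter]
      exact ⟨Finset.mem_univ _, fun z _ => by rw [hy, MonoidHom.one_apply]⟩
    positivity
  · have g1 := h7 M hM ε hε hε1
    have g2 := hd M ε hε hε1 (δ / 2 / κ) (by positivity)
    have hlim : ∀ᶠ Y : ℝ in atTop, (Real.log Y)⁻¹ ≤ δ / 2 :=
      (tendsto_inv_atTop_zero.comp Real.tendsto_log_atTop).eventually_le_const (half_pos hδ)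
    obtain ⟨Y₁, hY₁⟩ := eventually_atTop.1 hlim
    refine gpl_ge (gpl_and g1 g2) (max Y₁ 3) fun Y hY s hs => ?_
    obtain ⟨e1, e2⟩ := hs
    have hY3 : 3 ≤ Y := (le_max_right _ _).trans hY
    have hl : 1 ≤ Real.log Y := by
      rw [Real.le_log_iff_exp_le (by linarith)]
      have := Real.exp_one_lt_d9
      linarith
    obtain ⟨W, hW⟩ : ∃ W : ℝ, W = Y * Real.log Y ^ (N - 1) := ⟨_, rfl⟩
    have hYW : Y ≤ W := by
      rw [hW]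
      exact le_mul_of_one_le_right (by linarith) (one_le_pow₀ hl)
    rw [← hW] at e2 ⊢
    rw [← hm] at e2
    obtain ⟨S, hS⟩ : ∃ S : ℂ, S = ∑ z : H.Z, (∑ y, b y z) *
        ∑ f ∈ RRL c (cjF Fr s) φb E M (T0 ε Y) Y,
          om (ZZ D Y \ E) (fun v x => H.w z x (φG ((cjF Fr s).F v))) f := ⟨_, rfl⟩
    rw [← hS] at e1 e2
    obtain ⟨A, hA⟩ : ∃ A : ℝ, A = ∑ᶠ φ ∈ FS L Fr Q c φb φ' E Y,
        wL c (cjF Fr s) φb E M (T0 ε Y) Y φ := ⟨_, rfl⟩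
    rw [← hA] at e1 ⊢
    have e3 : ‖(A : ℂ) - ((κ * (l₀ * m) * W : ℝ) : ℂ)‖ ≤ δ * W := by
      have e4 : (A : ℂ) - ((κ * (l₀ * m) * W : ℝ) : ℂ) = ((A : ℂ) - κ * S) +
          κ * (S - ((l₀ * m * W : ℝ) : ℂ)) := by
        push_cast
        ring
      rw [e4]
      refine (norm_add_le _ _).trans ?_
      rw [norm_mul, Complex.norm_real, Real.norm_of_nonneg h5.le]
      have e5 : κ * ‖S - ((l₀ * m * W : ℝ) : ℂ)‖ ≤ δ / 2 * W := by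
        calc κ * ‖S - ((l₀ * m * W : ℝ) : ℂ)‖ ≤ κ * (δ / 2 / κ * W) :=
              mul_le_mul_of_nonneg_left e2 h5.le
          _ = δ / 2 * W := by field_simp
      have e6 : Y * (Real.log Y)⁻¹ ≤ δ / 2 * W := by
        rw [mul_comm]
        exact mul_le_mul (hY₁ Y ((le_max_left _ _).trans hY)) hYW (by linarith) (by positivity)
      linarith
    rw [← Complex.ofReal_sub, Complex.norm_real, Real.norm_eq_abs] at e3
    exact e3

end H12.S3.Q
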