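import Pool.Agent.H12.S3.Defs

/-!
# [H12 S3 GPF] chapter D: `Gpl` is a filter

* `gpl_mono`, `gpl_mono'`, `gpl_and`, `gpl_all` (finitely many), `gpl_const` (a relation which does not depend on `s`), `gpl_s` (`s v = 1` for `v ∈ E`).
* `gpl_ex`: for large `Y` there are good places with `R Y s`. `gpl_ev`: `Gpl` of a relation which does not depend on `s` holds eventually.
PROOF of `gpl_ex`: `glU` gives `s`; replace `s` by `1` on `E`: this costs at most `4 #E` in `GLp`, which is absorbed by `C' + 1` as `log Y ≥ 4 #E + 1`.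
-/

set_option autoImplicit false

open scoped NumberField
open IsDedekindDomain Filter Topology
open scoped Classical

noncomputable section

namespace H12.S3

open H38.ML H63.MA H38.BB H38.BG H57.PC H57.BRA H77.WD H77.WE H77.GL H57.AN H62.BL

section gpf

variable {K : Type} [Field K] [NumberField K] {Ω : Type} [Field Ω] [Algebra K Ω] {p : ℕ} {ζ : K}
  {D : RD0 K p ζ} {L : LDs D Ω} {Fr : FR L} {E : Finset (Pl K)}

theorem glp_mono {M M₂ C C₂ C' : ℕ} {Y : ℝ} (hY : 1 ≤ Y) (hM : M₂ ≤ M) (hC : C₂ ≤ C)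
    (h : GLp p Fr M C C' Y) : GLp p Fr M₂ C₂ C' Y := by
  intro H _ _ hH hc φ T hT hTn g hg x' x b hx0 hx
  exact h H hH (hc.trans hM) φ T hT (hTn.trans (pow_le_pow_right₀ hY hC)) g hg x' x b hx0
    (hx.trans (pow_le_pow_right₀ hY hC))

theorem gpl_mono {R R' : ℝ → (Pl K → Gal(Ω/K)) → Prop} (h : Gpl p Fr E R)
    (hR : ∀ᶠ Y : ℝ in atTop, ∀ s : Pl K → Gal(Ω/K), (∀ v ∈ E, s v = 1) → R Y s → R' Y s) :
    Gpl p Fr E R' := by
  obtain ⟨M, C, h⟩ := h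
  obtain ⟨Y₁, hY₁⟩ := eventually_atTop.1 hR
  refine ⟨M, C, fun C' => ?_⟩
  obtain ⟨Y₂, hY₂⟩ := h C'
  refine ⟨max Y₁ Y₂, fun Y hY s hs hG => ?_⟩
  exact hY₁ Y ((le_max_left _ _).trans hY) s hs (hY₂ Y ((le_max_right _ _).trans hY) s hs hG)

theorem gpl_mono' {R R' : ℝ → (Pl K → Gal(Ω/K)) → Prop} (h : Gpl p Fr E R)
    (hR : ∀ (Y : ℝ) (s : Pl K → Gal(Ω/K)), R Y s → R' Y s) : Gpl p Fr E R' :=
  gpl_mono h (Filter.Eventually.of_forall fun Y s _ hs => hR Y s hs)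

theorem gpl_const {R : ℝ → Prop} (h : ∀ᶠ Y : ℝ in atTop, R Y) : Gpl p Fr E fun Y _ => R Y := by
  obtain ⟨Y₁, hY₁⟩ := eventually_atTop.1 h
  exact ⟨0, 0, fun _ => ⟨Y₁, fun Y hY _ _ _ => hY₁ Y hY⟩⟩

theorem gpl_s : Gpl p Fr E fun _ s => ∀ v ∈ E, s v = 1 :=
  ⟨0, 0, fun _ => ⟨0, fun _ _ _ hs _ => hs⟩⟩

theorem gpl_and {R R' : ℝ → (Pl K → Gal(Ω/K)) → Prop} (h : Gpl p Fr E R) (h' : Gpl p Fr E R') :
    Gpl p Fr E fun Y s => R Y s ∧ R' Y s := by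
  obtain ⟨M₁, C₁, h⟩ := h
  obtain ⟨M₂, C₂, h'⟩ := h'
  refine ⟨max M₁ M₂, max C₁ C₂, fun C' => ?_⟩
  obtain ⟨Y₁, hY₁⟩ := h C'
  obtain ⟨Y₂, hY₂⟩ := h' C'
  refine ⟨max 1 (max Y₁ Y₂), fun Y hY s hs hG => ?_⟩
  have h1 : 1 ≤ Y := (le_max_left _ _).trans hY
  have h2 : Y₁ ≤ Y := ((le_max_left _ _).trans (le_max_right _ _)).trans hY
  have h3 : Y₂ ≤ Y := ((le_max_right _ _).trans (le_max_right _ _)).trans hY
  exact ⟨hY₁ Y h2 s hs (glp_mono h1 (le_max_left _ _) (le_max_left _ _) hG),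
    hY₂ Y h3 s hs (glp_mono h1 (le_max_right _ _) (le_max_right _ _) hG)⟩

theorem gpl_all {ι : Type} (I : Finset ι) {R : ι → ℝ → (Pl K → Gal(Ω/K)) → Prop}
    (h : ∀ i ∈ I, Gpl p Fr E (R i)) : Gpl p Fr E fun Y s => ∀ i ∈ I, R i Y s := by
  induction I using Finset.induction_on with
  | empty => exact gpl_mono' gpl_s fun Y s _ i hi => absurd hi (Finset.notMem_empty i)
  | insert j I hj ih =>
    refine gpl_mono' (gpl_and (h j (Finset.mem_insert_self j I))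
      (ih fun i hi => h i (Finset.mem_insert_of_mem hi))) ?_
    intro Y s hs i hi
    rcases Finset.mem_insert.1 hi with rfl | h1
    · exact hs.1
    · exact hs.2 i h1

theorem gpl_fin {ι : Type} [Finite ι] {R : ι → ℝ → (Pl K → Gal(Ω/K)) → Prop}
    (h : ∀ i, Gpl p Fr E (R i)) : Gpl p Fr E fun Y s => ∀ i, R i Y s := by
  have := Fintype.ofFinite ι
  exact gpl_mono' (gpl_all Finset.univ fun i _ => h i) fun Y s hs i => hs i (Finset.mem_univ i)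

/-- changing `s` to `1` on `E` -/
private theorem glp_one {M C C' : ℕ} {Y : ℝ} (hY : 4 * (E.card : ℝ) + 1 ≤ Real.log Y)
    {s : Pl K → Gal(Ω/K)} (h : GLp p (cjF Fr s) M C C' Y) :
    GLp p (cjF Fr fun v => if v ∈ E then 1 else s v) M C (C' + 1) Y := by
  intro H _ _ hH hc φ T hT hTn g hg x' x b hx0 hx
  have hT' : Unz (cjL L s) T φ := (unz_cj L s T φ).2 ((unz_cj L _ T φ).1 hT)
  have h1 := h H hH hc φ T hT' hTn g hg x' x b hx0 hx
  set A := (PI K x' x b).filter (fun w => w ∉ D.S0 ∧ w ∉ T) with hA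
  set s' : Pl K → Gal(Ω/K) := fun v => if v ∈ E then 1 else s v with hs'
  have hgb : ∀ y : H, ‖g y - av φ g y‖ ≤ 2 := fun y =>
    (norm_sub_le _ _).trans (by linarith [hg y, av_le φ g hg y])
  have h2 : ∑ w ∈ A, (g (φ ((cjF Fr s').F w)) - av φ g (φ ((cjF Fr s').F w))) =
      ∑ w ∈ A, (g (φ ((cjF Fr s).F w)) - av φ g (φ ((cjF Fr s).F w))) +
        ∑ w ∈ A, ((g (φ ((cjF Fr s').F w)) - av φ g (φ ((cjF Fr s').F w))) -
          (g (φ ((cjF Fr s).F w)) - av φ g (φ ((cjF Fr s).F w)))) := by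
    rw [← Finset.sum_add_distrib]
    exact Finset.sum_congr rfl fun w _ => by ring
  have h3 : ‖∑ w ∈ A, ((g (φ ((cjF Fr s').F w)) - av φ g (φ ((cjF Fr s').F w))) -
      (g (φ ((cjF Fr s).F w)) - av φ g (φ ((cjF Fr s).F w))))‖ ≤ 4 * (E.card : ℝ) := by
    refine (norm_sum_le _ _).trans ?_
    have h4 : ∀ w ∈ A, ‖(g (φ ((cjF Fr s').F w)) - av φ g (φ ((cjF Fr s').F w))) -
        (g (φ ((cjF Fr s).F w)) - av φ g (φ ((cjF Fr s).F w)))‖ ≤ if w ∈ E then (4 : ℝ) else 0 := by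
      intro w _
      by_cases hw : w ∈ E
      · rw [if_pos hw]
        exact (norm_sub_le _ _).trans (by linarith [hgb (φ ((cjF Fr s').F w)), hgb (φ ((cjF Fr s).F w))])
      · rw [if_neg hw]
        have h5 : (cjF Fr s').F w = (cjF Fr s).F w := by
          show s' w * Fr.F w * (s' w)⁻¹ = s w * Fr.F w * (s w)⁻¹
          rw [hs']
          simp only [if_neg hw]
        rw [h5, sub_self, norm_zero]
    refine (Finset.sum_le_sum h4).trans ?_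
    rw [← Finset.sum_filter, Finset.sum_const, nsmul_eq_mul, mul_comm]
    refine mul_le_mul_of_nonneg_left ?_ (by norm_num)
    exact_mod_cast Finset.card_le_card fun w hw => (Finset.mem_filter.1 hw).2
  rw [h2]
  refine (norm_add_le _ _).trans ?_
  have hx34 : 0 ≤ x ^ (3 / 4 : ℝ) := Real.rpow_nonneg hx0 _
  have hE : (0 : ℝ) ≤ (E.card : ℝ) := Nat.cast_nonneg _
  have hl1 : 1 ≤ Real.log Y := by linarith
  have hlp : 1 ≤ Real.log Y ^ C' := one_le_pow₀ hl1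
  have h6 : Real.log Y ^ C' + 4 * (E.card : ℝ) ≤ Real.log Y ^ (C' + 1) := by
    rw [pow_succ]
    nlinarith
  push_cast
  nlinarith

theorem gpl_ex [IsAlgClosure K Ω] (hp : p.Prime) (hζ : IsPrimitiveRoot ζ p)
    {R : ℝ → (Pl K → Gal(Ω/K)) → Prop} (h : Gpl p Fr E R) :
    ∀ᶠ Y : ℝ in atTop, ∃ s : Pl K → Gal(Ω/K), (∀ v ∈ E, s v = 1) ∧ R Y s := by
  obtain ⟨M, C, h⟩ := h
  obtain ⟨C₀, Y₁, hgl⟩ := glU (Ω := Ω) hp hζ D M C
  obtain ⟨Y₂, h2⟩ := h (C₀ + 1)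
  have hlog : ∀ᶠ Y : ℝ in atTop, 4 * (E.card : ℝ) + 1 ≤ Real.log Y :=
    Real.tendsto_log_atTop.eventually_ge_atTop _
  filter_upwards [eventually_ge_atTop Y₁, eventually_ge_atTop Y₂, hlog] with Y hY1 hY2 hY3
  obtain ⟨s, hs⟩ := hgl Y hY1 L Fr
  have hs' : GLp p (cjF Fr s) M C C₀ Y := fun H _ _ => hs H
  refine ⟨fun v => if v ∈ E then 1 else s v, fun v hv => if_pos hv, ?_⟩
  exact h2 Y hY2 _ (fun v hv => if_pos hv) (glp_one hY3 hs')

theorem gpl_ev [IsAlgClosure K Ω] (hp : p.Prime) (hζ : IsPrimitiveRoot ζ p) {R : ℝ → Prop}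
    (h : Gpl p Fr E fun Y _ => R Y) : ∀ᶠ Y : ℝ in atTop, R Y :=
  (gpl_ex hp hζ h).mono fun _ hY => hY.choose_spec.2

end gpf

end H12.S3
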