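import Pool.Agent.H12.S3.Dsq
import Pool.Agent.H12.S3.Fsc
import Pool.Agent.H12.S3.Gpf
import Pool.Agent.H67.S3.Wmk

/-!
# [H12 S3 LM1] the limit for one fibre and one type (D4-D6 of think 1710)

* `lm1`: from `EQ1` (chapter B), `NR1` (D5 (b)), `UBK` (poor classes), `GPU`: `#FS Y / (Y (log Y)^(N-1))` has a limit `l ≥ 0`, and `l > 0` if `φ' = φb`.
PROOF. `#FS - ∑ wL = ∑ (1 - wL)`: at most the number of the class-poor `φ` (`UBK`) plus `2^M ∑_x ∑ z_x^(rn x φ)` over the class-rich `φ` (`wmk`, `NR1`), `z_x = 1 - q_x / 2`. `∑ wL = (l + o(1)) Y (log Y)^(N-1)`: `dsx`.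
-/

set_option autoImplicit false

open scoped NumberField
open IsDedekindDomain Filter Topology
open scoped Classical

noncomputable section

namespace H12.S3

open H38.ML H63.MA H38.BB H38.BG H57.PC H57.BRA H38.AS H77.WD H77.WE H77.GL H77.PC3 H77.S0T H77.FLD H77.PLF
  H35.CF H35.UB H35.AC H51.PF H51.AC2 H51.F3 H24.RK H62.BL H86.AP

/-- the difference between the number of homomorphisms and the sum of the weights -/
private theorem df {Γ ι : Type} [Fintype ι] (F : Finset Γ) (w : Γ → ℝ) (R : Γ → Prop) (r : ι → Γ → ℕ)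
    (z : ι → ℝ) (M : ℕ) (h0 : ∀ φ ∈ F, 0 ≤ w φ) (h1 : ∀ φ ∈ F, w φ ≤ 1)
    (h2 : ∀ φ ∈ F, 1 - w φ ≤ 2 ^ M * ∑ x, z x ^ r x φ) :
    |(F.card : ℝ) - ∑ φ ∈ F, w φ| ≤ ((F.filter fun φ => ¬ R φ).card : ℝ) +
      2 ^ M * ∑ x, ∑ φ ∈ F.filter R, z x ^ r x φ := by
  have e1 : (F.card : ℝ) - ∑ φ ∈ F, w φ = ∑ φ ∈ F, (1 - w φ) := by
    rw [Finset.sum_sub_distrib, Finset.sum_const, nsmul_eq_mul, mul_one]
  have e2 : 0 ≤ ∑ φ ∈ F, (1 - w φ) := Finset.sum_nonneg fun φ hφ => sub_nonneg.2 (h1 φ hφ)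
  rw [e1, abs_of_nonneg e2, ← Finset.sum_filter_add_sum_filter_not F R, add_comm]
  refine add_le_add ?_ ?_
  · calc ∑ φ ∈ F.filter (fun φ => ¬ R φ), (1 - w φ) ≤ ∑ φ ∈ F.filter (fun φ => ¬ R φ), (1 : ℝ) :=
          Finset.sum_le_sum fun φ hφ => by linarith [h0 φ (Finset.mem_filter.1 hφ).1]
      _ = _ := by rw [Finset.sum_const, nsmul_eq_mul, mul_one]
  · rw [Finset.sum_comm, Finset.mul_sum]
    exact Finset.sum_le_sum fun φ hφ => h2 φ (Finset.mem_filter.1 hφ).1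

private theorem pow_bd {N : ℕ} (hN : 1 ≤ N) {l b : ℝ} (hl : 1 ≤ l) (n : ℝ) (_ : 0 < n)
    (hb : b ≤ (N : ℝ) - 1 - n) : l ^ b ≤ l ^ (N - 1) * l ^ (-n) := by
  have h0 : 0 < l := by linarith
  have h1 : l ^ (N - 1) = l ^ ((N : ℝ) - 1) := by
    rw [← Real.rpow_natCast, Nat.cast_sub hN, Nat.cast_one]
  rw [h1, ← Real.rpow_add h0]
  exact Real.rpow_le_rpow_of_exponent_le hl (by linarith)

/-- a bound `C Y (log Y)^b` with `b < N - 1` is small -/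
private theorem sml {N : ℕ} (hN : 1 ≤ N) (C b δ : ℝ) (hb : b < (N : ℝ) - 1) (hδ : 0 < δ) :
    ∃ Y₀ : ℝ, ∀ Y : ℝ, Y₀ ≤ Y →
      C * Y * Real.log Y ^ b ≤ δ * (Y * Real.log Y ^ (N - 1)) := by
  obtain ⟨n, hn⟩ : ∃ n : ℝ, n = (N : ℝ) - 1 - b := ⟨_, rfl⟩
  have hn0 : 0 < n := by rw [hn]; linarith
  have h1 : Tendsto (fun Y : ℝ => |C| * Real.log Y ^ (-n)) atTop (𝓝 0) := by
    have h2 := ((tendsto_rpow_neg_atTop hn0).comp Real.tendsto_log_atTop).const_mul |C|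
    rwa [mul_zero] at h2
  obtain ⟨Y₁, hY₁⟩ := eventually_atTop.1 (h1.eventually_le_const hδ)
  refine ⟨max Y₁ 3, fun Y hY => ?_⟩
  have hY3 : 3 ≤ Y := (le_max_right _ _).trans hY
  have hl : 1 ≤ Real.log Y := by
    rw [Real.le_log_iff_exp_le (by linarith)]
    have := Real.exp_one_lt_d9
    linarith
  have h3 := hY₁ Y ((le_max_left _ _).trans hY)
  have h4 := pow_bd hN hl n hn0 (by rw [hn]; linarith : b ≤ (N : ℝ) - 1 - n)
  have hl0 : 0 < Real.log Y := by linarith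
  have hY0 : 0 < Y := by linarith
  calc C * Y * Real.log Y ^ b ≤ |C| * Y * Real.log Y ^ b := by
        have h5 : 0 ≤ Y * Real.log Y ^ b := by positivity
        nlinarith [le_abs_self C]
    _ ≤ |C| * Y * (Real.log Y ^ (N - 1) * Real.log Y ^ (-n)) :=
        mul_le_mul_of_nonneg_left h4 (by positivity)
    _ = |C| * Real.log Y ^ (-n) * (Y * Real.log Y ^ (N - 1)) := by ring
    _ ≤ δ * (Y * Real.log Y ^ (N - 1)) := mul_le_mul_of_nonneg_right h3 (by positivity)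

theorem lm1 {K : IntermediateField ℚ QBar} [NumberField K] {p N : ℕ} {ζ : K} (hp : p.Prime)
    (hM1 : MOne p K) (hζ : IsPrimitiveRoot ζ p) {P : Type} [Group P] [Fintype P]
    (hP : IsPGroup p P) (hN : 1 ≤ N) {D : RD0 K p ζ} {L : LDs D QBar} (Fr : FR L) (Q : DP K QBar)
    (c : CL p N P) {φb φ' : Gal(QBar/K) →* P} {E : Finset (Pl K)} (hF : Fib L c φb φ' E)
    {κ₁ : ℕ} (hE : EQ1 L Fr Q c φb φ' E κ₁) (hR : NR1 L Fr Q c φb φ' E) (hU : UBK D c)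
    (hG : GPU D QBar κ₁) :
    ∃ l : ℝ, 0 ≤ l ∧ (φ' = φb → 0 < l) ∧
      Tendsto (fun Y : ℝ => ((FS L Fr Q c φb φ' E Y).ncard : ℝ) / (Y * Real.log Y ^ (N - 1)))
        atTop (𝓝 l) := by
  obtain ⟨l, M₁, hl0, hlp, hD⟩ := H12.S3.Q.dsx hp hM1 hζ hP hN Fr Q c hF hE hG
  obtain ⟨M₀, B, hB, hU⟩ := hU
  refine ⟨l, hl0, hlp, ?_⟩
  have hcP : (0 : ℝ) < Nat.card P := by exact_mod_cast Nat.card_pos
  have hq0 := H67.S3.qx_pos c
  have hq1 := H67.S3.qx_le c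
  obtain ⟨q, hq⟩ : ∃ q : Px c → ℝ, q = H67.S3.qx c := ⟨_, rfl⟩
  rw [← hq] at hq0 hq1
  have hR' := fun x : Px c => hR x (1 - q x / 2) (by linarith [hq1 x]) (by linarith [hq0 x])
  choose Bx Mx hBx hNR using hR'
  obtain ⟨M, hM⟩ : ∃ M : ℕ, M = M₁ + M₀ + ∑ x, Mx x := ⟨_, rfl⟩
  have hMx : ∀ x, Mx x ≤ M := fun x => by
    have := Finset.single_le_sum (f := Mx) (fun _ _ => Nat.zero_le _) (Finset.mem_univ x)
    omega
  -- the choice of `ε`
  obtain ⟨ε, hε, hε1, hεB, hεx⟩ : ∃ ε : ℝ, 0 < ε ∧ ε < 1 ∧ B * ε < 1 ∧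
      ∀ x, Bx x * ε < q x / 2 / Nat.card P := by
    have g : ∀ᶠ ε : ℝ in 𝓝[>] 0, ε < 1 ∧ B * ε < 1 ∧ ∀ x, Bx x * ε < q x / 2 / Nat.card P := by
      have g0 : Tendsto (fun ε : ℝ => ε) (𝓝[>] 0) (𝓝 0) := tendsto_nhdsWithin_of_tendsto_nhds
        tendsto_id
      have g1 : ∀ b : ℝ, Tendsto (fun ε : ℝ => b * ε) (𝓝[>] 0) (𝓝 0) := fun b => by
        have := g0.const_mul b
        rwa [mul_zero] at this
      refine (g0.eventually_lt_const one_pos).and (((g1 B).eventually_lt_const one_pos).and ?_)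
      rw [Filter.eventually_all]
      intro x
      exact (g1 (Bx x)).eventually_lt_const (div_pos (half_pos (hq0 x)) hcP)
    obtain ⟨ε, h1, h2⟩ := (g.and self_mem_nhdsWithin).exists
    exact ⟨ε, h2, h1.1, h1.2.1, h1.2.2⟩
  obtain ⟨CU, YU, -, -, hUb⟩ := hU M 1 ε (by omega) hε hε1
  have hNR' := fun x => hNR x M (hMx x) ε hε hε1
  choose Cx hCx using hNR'
  rw [Metric.tendsto_atTop]
  intro δ hδ
  -- the four conditions
  obtain ⟨n, hn⟩ : ∃ n : ℝ, n = Fintype.card (Px c) + 1 := ⟨_, rfl⟩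
  have hn0 : 0 < n := by rw [hn]; positivity
  obtain ⟨δ₁, hδ₁⟩ : ∃ δ₁ : ℝ, δ₁ = δ / 4 / (2 ^ M * n) := ⟨_, rfl⟩
  have hδ₁0 : 0 < δ₁ := by rw [hδ₁]; positivity
  have hev := gpl_ex hp hζ (H12.S3.Q.gpl_and (hD M (by omega) ε hε hε1 (δ / 4) (by positivity))
    (H12.S3.Q.gpl_fin Finset.univ hCx))
  obtain ⟨Y₁, hY₁⟩ := eventually_atTop.1 hev
  obtain ⟨Y₂, hY₂⟩ := sml hN (CU * (Nat.card P : ℝ) ^ E.card) ((N : ℝ) - 2 + B * ε) (δ / 4)
    (by linarith) (by positivity)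
  have hY₃ := fun x => sml hN (Cx x) ((N : ℝ) - 1 - (1 - (1 - q x / 2)) / Nat.card P + Bx x * ε) δ₁
    (by
      have h1 := hεx x
      have h2 : (1 - (1 - q x / 2)) / (Nat.card P : ℝ) = q x / 2 / Nat.card P := by
        rw [sub_sub_cancel]
      rw [h2]
      linarith) hδ₁0
  choose Y₃ hY₃ using hY₃
  have hnrE : ∀ᶠ Y : ℝ in atTop, nr E ≤ Real.log Y ^ (1 : ℝ) := by
    simp_rw [Real.rpow_one]
    exact Real.tendsto_log_atTop.eventually_ge_atTop _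
  obtain ⟨Y₄, hY₄⟩ := eventually_atTop.1 hnrE
  refine ⟨max (max Y₁ Y₂) (max (max Y₄ YU) (max 3 (∑ x, |Y₃ x|))), fun Y hY => ?_⟩
  have k1 : Y₁ ≤ Y := (le_max_left _ _).trans ((le_max_left _ _).trans hY)
  have k2 : Y₂ ≤ Y := (le_max_right _ _).trans ((le_max_left _ _).trans hY)
  have k0 := (le_max_right _ _).trans hY
  have k4 : Y₄ ≤ Y := (le_max_left _ _).trans ((le_max_left _ _).trans k0)
  have kU : YU ≤ Y := (le_max_right _ _).trans ((le_max_left _ _).trans k0)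
  have k3 : 3 ≤ Y := (le_max_left _ _).trans ((le_max_right _ _).trans k0)
  have kx : ∀ x, Y₃ x ≤ Y := fun x => (le_abs_self _).trans ((Finset.single_le_sum
    (f := fun x => |Y₃ x|) (fun _ _ => abs_nonneg _) (Finset.mem_univ x)).trans
    ((le_max_right _ _).trans ((le_max_right _ _).trans k0)))
  obtain ⟨s, hs, hs1, hs2⟩ := hY₁ Y k1
  have hlog : 0 < Real.log Y := Real.log_pos (by linarith)
  have hW : 0 < Y * Real.log Y ^ (N - 1) := by positivity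
  obtain ⟨W, hWd⟩ : ∃ W : ℝ, W = Y * Real.log Y ^ (N - 1) := ⟨_, rfl⟩
  rw [← hWd] at hW hs1
  have hfin := fs_fin hp hζ L Fr Q hP c φb φ' E Y
  obtain ⟨F, hFd⟩ : ∃ F : Finset (Gal(QBar/K) →* P), F = hfin.toFinset := ⟨_, rfl⟩
  have hmem : ∀ φ, φ ∈ F ↔ φ ∈ FS L Fr Q c φb φ' E Y := fun φ => by
    rw [hFd, Set.Finite.mem_toFinset]
  have hcard : ((FS L Fr Q c φb φ' E Y).ncard : ℝ) = F.card := by
    rw [Set.ncard_eq_toFinset_card _ hfin, hFd]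
  obtain ⟨w, hw⟩ : ∃ w : (Gal(QBar/K) →* P) → ℝ,
      w = fun φ => wL c (cjF Fr s) φb E M (T0 ε Y) Y φ := ⟨_, rfl⟩
  have hsum : ∑ᶠ φ ∈ FS L Fr Q c φb φ' E Y, wL c (cjF Fr s) φb E M (T0 ε Y) Y φ =
      ∑ φ ∈ F, w φ := by
    rw [finsum_mem_eq_finite_toFinset_sum _ hfin, hFd, hw]
  rw [hsum] at hs1
  have hdf := df F w (fun φ => Rch L c E M ε Y φ)
    (fun x φ => rn c (cjF Fr s) φb E (T0 ε Y) x φ) (fun x : Px c => 1 - q x / 2) M
    (fun φ _ => by rw [hw]; exact H67.S3.wL_nn c _ φb E M _ Y φ)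
    (fun φ _ => by rw [hw]; exact H67.S3.wL_le c _ φb E M _ Y φ) (fun φ hφ => by
      rw [hw, hq]
      exact H67.S3.wmk c Fr Q M (T0 ε Y) (φb := φb) (φ' := φ') ((hmem φ).1 hφ) s)
  -- the class-poor homomorphisms
  have hpoor : ((F.filter fun φ => ¬ Rch L c E M ε Y φ).card : ℝ) ≤ δ / 4 * W := by
    obtain ⟨hf, hb⟩ := hUb L E Y kU (hY₄ Y k4) fun v hv => (hF.gd v hv).1
    have h1 : ((F.filter fun φ => ¬ Rch L c E M ε Y φ).card : ℝ) ≤
        ({φ | φ ∈ PU L c E Y ∧ Por L c E M ε Y φ}.ncard : ℝ) := by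
      rw [← Set.ncard_coe_finset]
      refine Nat.cast_le.2 (Set.ncard_le_ncard (fun φ hφ => ?_) hf)
      rw [Finset.mem_coe, Finset.mem_filter] at hφ
      refine ⟨fs_pu hp hζ L Fr Q hP c φb φ' E Y ((hmem φ).1 hφ.1), ?_⟩
      have h2 := hφ.2
      unfold Rch at h2
      push Not at h2
      exact h2
    rw [hWd]
    exact h1.trans (hb.trans (hY₂ Y k2))
  -- the class-rich homomorphisms
  have hrich : ∀ x : Px c, ∑ φ ∈ F.filter (fun φ => Rch L c E M ε Y φ),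
      (1 - q x / 2) ^ rn c (cjF Fr s) φb E (T0 ε Y) x φ ≤ δ₁ * W := by
    intro x
    have h1 := hs2 x (Finset.mem_univ x)
    have hf : {φ | φ ∈ FS L Fr Q c φb φ' E Y ∧ Rch L c E M ε Y φ}.Finite :=
      hfin.subset fun φ hφ => hφ.1
    rw [finsum_mem_eq_finite_toFinset_sum _ hf] at h1
    have h2 : hf.toFinset = F.filter (fun φ => Rch L c E M ε Y φ) := by
      ext φ
      rw [Set.Finite.mem_toFinset, Finset.mem_filter, hmem]
      rfl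
    rw [h2] at h1
    rw [hWd]
    exact h1.trans (hY₃ x Y (kx x))
  have hsumx : 2 ^ M * ∑ x, ∑ φ ∈ F.filter (fun φ => Rch L c E M ε Y φ),
      (1 - q x / 2) ^ rn c (cjF Fr s) φb E (T0 ε Y) x φ ≤ δ / 4 * W := by
    have h1 : ∑ x, ∑ φ ∈ F.filter (fun φ => Rch L c E M ε Y φ),
        (1 - q x / 2) ^ rn c (cjF Fr s) φb E (T0 ε Y) x φ ≤ n * (δ₁ * W) := by
      refine (Finset.sum_le_sum fun x _ => hrich x).trans ?_
      rw [Finset.sum_const, Finset.card_univ, nsmul_eq_mul]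
      refine mul_le_mul_of_nonneg_right ?_ (by positivity)
      rw [hn]
      linarith
    calc _ ≤ 2 ^ M * (n * (δ₁ * W)) := mul_le_mul_of_nonneg_left h1 (by positivity)
      _ = δ / 4 * W := by
        rw [hδ₁]
        field_simp
  -- the end
  rw [← hWd, Real.dist_eq, hcard]
  have h5 : |(F.card : ℝ) - l * W| ≤ 3 / 4 * δ * W := by
    have h6 : (F.card : ℝ) - l * W = ((F.card : ℝ) - ∑ φ ∈ F, w φ) +
        (∑ φ ∈ F, w φ - l * W) := by ring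
    rw [h6]
    refine (abs_add_le _ _).trans ?_
    have h7 := hdf.trans (add_le_add hpoor hsumx)
    linarith
  have h8 : (F.card : ℝ) / W - l = ((F.card : ℝ) - l * W) / W := by
    rw [sub_div, mul_div_cancel_right₀ _ hW.ne']
  rw [h8, abs_div, abs_of_pos hW, div_lt_iff₀ hW]
  refine h5.trans_lt ?_
  nlinarith [mul_pos hδ hW]

end H12.S3
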