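import Pool.Agent.H12.S3.Fbr
import Pool.Agent.H12.S3.Fsx
import Pool.Agent.H12.S3.Lm1
import Pool.Agent.H51.AC2.Trn

/-!
# [H12 S3 ASM] chapter D: the asymptotic formula and the positivity from chapter B

* `sca`: scaling. `lmt`: `LmT` from the limits for the fibres and types. `pst`: `PsT`.
* `asm`: THEOREM. `EQ3 p` (chapter B), `NR3 p` (D5 (b)), `BL2 p`, `GP2 p` imply `LmT` and `PsT` for all `p`-groups.
-/

set_option autoImplicit false

open scoped NumberField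
open IsDedekindDomain Filter Topology
open scoped Classical

noncomputable section

namespace H12.S3

open H38.ML H63.MA H38.BB H38.BG H57.PC H57.BRA H38.AS H77.WD H77.WE H77.GL H77.PC3 H77.S0T H77.FLD H77.PLF
  H35.CF H35.UB H35.AC H51.PF H51.AC2 H51.F3 H24.RK H62.BL H86.AP

/-- `-1` is a `p`-th power if there are roots of unity of order `p ^ 2` -/
private theorem mone_of' {p M : ℕ} (hp : p.Prime) (hM : 2 ≤ M) {K : Type} [Field K] {z : K}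
    (hz : IsPrimitiveRoot z (p ^ M)) : MOne p K := by
  rcases hp.eq_two_or_odd' with h | h
  · subst h
    have h1 : IsPrimitiveRoot (z ^ 2 ^ (M - 1)) 2 := by
      refine hz.pow (pow_pos two_pos _) ?_
      rw [← pow_succ]
      congr 1
      omega
    refine ⟨z ^ 2 ^ (M - 2), ?_⟩
    rw [← h1.eq_neg_one_of_two_right, ← pow_mul, ← pow_succ]
    congr 2
    omega
  · exact ⟨-1, h.neg_one_pow⟩

private theorem prm_pow' {K : Type} [Field K] {p M M' : ℕ} (hp : p.Prime) {z : K}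
    (hz : IsPrimitiveRoot z (p ^ M)) (h : M' ≤ M) : ∃ z' : K, IsPrimitiveRoot z' (p ^ M') := by
  refine ⟨z ^ (p ^ (M - M')), hz.pow (pow_pos hp.pos _) ?_⟩
  rw [← pow_add]
  congr 1
  omega

/-- scaling -/
theorem sca (f : ℝ → ℝ) (n : ℕ) (l ν : ℝ) (hν : 1 ≤ ν)
    (h : Tendsto (fun Y : ℝ => f Y / (Y * Real.log Y ^ n)) atTop (𝓝 l)) :
    Tendsto (fun Y : ℝ => f (Y / ν) / (Y * Real.log Y ^ n)) atTop (𝓝 (l / ν)) := by
  have hν0 : 0 < ν := by linarith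
  have h1 : Tendsto (fun Y : ℝ => Y / ν) atTop atTop := tendsto_id.atTop_div_const hν0
  have h2 := h.comp h1
  have h3 : Tendsto (fun Y : ℝ => 1 - Real.log ν / Real.log Y) atTop (𝓝 1) := by
    have h4 : Tendsto (fun Y : ℝ => Real.log ν / Real.log Y) atTop (𝓝 0) :=
      Real.tendsto_log_atTop.const_div_atTop _
    have h5 := h4.const_sub 1
    rwa [sub_zero] at h5
  have h4 := (h2.mul (h3.pow n)).mul_const ν⁻¹
  rw [one_pow, mul_one, ← div_eq_mul_inv] at h4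
  refine h4.congr' ?_
  filter_upwards [eventually_gt_atTop ν, eventually_gt_atTop (1 : ℝ)] with Y g1 g2
  have hY0 : 0 < Y := by linarith
  have hl : 0 < Real.log Y := Real.log_pos g2
  have hl2 : 0 < Real.log (Y / ν) := Real.log_pos ((one_lt_div hν0).2 g1)
  have e1 : 1 - Real.log ν / Real.log Y = Real.log (Y / ν) / Real.log Y := by
    rw [Real.log_div hY0.ne' hν0.ne', sub_div, div_self hl.ne']
  rw [Function.comp_apply, e1, div_pow]
  field_simp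

variable {K : IntermediateField ℚ QBar} [NumberField K] {p N : ℕ} {ζ : K}

/-- the asymptotic formula -/
theorem lmt (hp : p.Prime) (hM1 : MOne p K) (hζ : IsPrimitiveRoot ζ p) {P : Type} [Group P]
    [Fintype P] (hP : IsPGroup p P) (hN : 1 ≤ N) (D : RD0 K p ζ) (c : CL p N P) (n κ₁ : ℕ) (z : K)
    (hE : EQs D c n z κ₁) (hR : NRs D c n z) (hU : UBK D c) (hG : GPU D QBar κ₁) :
    LmT D c n z := by
  intro L hL Q hLQ φ₁ _
  obtain ⟨Fr⟩ := H77.PC3.exists_FR hp hζ L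
  obtain ⟨ι, _, φb, φ', E, ν, hF, hν, hS⟩ := fbr hp hM1 hζ hP L Fr Q c φ₁
  have h1 : ∀ i, ∃ l : ℝ, Tendsto (fun Y : ℝ =>
      ((FS L Fr Q c (φb i) (φ' i) (E i) Y).ncard : ℝ) / (Y * Real.log Y ^ (N - 1)))
      atTop (𝓝 l) := by
    intro i
    obtain ⟨l, -, -, hl⟩ := lm1 hp hM1 hζ hP hN Fr Q c (hF i)
      (hE L hL Fr Q hLQ (φb i) (φ' i) (E i) (hF i)) (hR L hL Fr Q hLQ (φb i) (φ' i) (E i) (hF i))
      hU hG
    exact ⟨l, hl⟩
  choose l hl using h1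
  refine ⟨∑ i, l i / ν i, ?_⟩
  have h2 := tendsto_finsetSum (Finset.univ : Finset ι) fun i _ =>
    sca (fun Y => ((FS L Fr Q c (φb i) (φ' i) (E i) Y).ncard : ℝ)) (N - 1) (l i) (ν i) (hν i) (hl i)
  refine h2.congr fun Y => ?_
  rw [(hS Y).2, Nat.cast_sum, Finset.sum_div]

/-- the positivity -/
theorem pst (hp : p.Prime) (hM1 : MOne p K) (hζ : IsPrimitiveRoot ζ p) {P : Type} [Group P]
    [Fintype P] (hP : IsPGroup p P) (hN : 1 ≤ N) (D : RD0 K p ζ) (c : CL p N P) (n κ₁ : ℕ) (z : K)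
    (hE : EQs D c n z κ₁) (hR : NRs D c n z) (hU : UBK D c) (hG : GPU D QBar κ₁) :
    PsT D c n z := by
  intro L hL Q hLQ φ₀ h₀ hs hun
  obtain ⟨Fr⟩ := H77.PC3.exists_FR hp hζ L
  have hF : Fib L c φ₀ φ₀ ∅ := ⟨h₀, hs, fun v hv => absurd hv (Finset.notMem_empty v),
    fun v hv _ => hun v hv _ (t_in L hv), fun v hv => absurd hv (Finset.notMem_empty v), h₀,
    fun σ => by
      rw [inv_mul_cancel]
      exact (Tc c).one_mem⟩
  obtain ⟨l, -, hl0, hl⟩ := lm1 hp hM1 hζ hP hN Fr Q c hF (hE L hL Fr Q hLQ φ₀ φ₀ ∅ hF)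
    (hR L hL Fr Q hLQ φ₀ φ₀ ∅ hF) hU hG
  have hl1 := hl0 rfl
  refine ⟨l / 2, by positivity, ?_⟩
  filter_upwards [hl.eventually_const_le (half_lt_self hl1), eventually_gt_atTop (1 : ℝ)]
    with Y g1 g2
  have hY0 : 0 < Y := by linarith
  have hden : 0 < Y * Real.log Y ^ (N - 1) := mul_pos hY0 (pow_pos (Real.log_pos g2) _)
  rw [le_div_iff₀ hden] at g1
  refine g1.trans ?_
  obtain ⟨_, _, -, -, htr⟩ := trv hp hζ hP L c
  have hfin := (htr ∅ Y g2.le).1.subset (syt_sub L Q c (Tc c) φ₀ Y)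
  exact_mod_cast Set.ncard_le_ncard (fs_syt hp hζ L Fr Q hP c φ₀ φ₀ Y) hfin

/-- THEOREM of chapter D -/
theorem asm {p : ℕ} (hp : p.Prime) (hE : EQ3 p) (hR : NR3 p) (hB : BL2 p) (hG : GP2 p)
    (P : Type) [Group P] [Fintype P] (hP : IsPGroup p P) : ∃ n : ℕ,
    ∀ (N : ℕ) (c : CL p N P) (_ : 1 ≤ N) (_ : C4 c)
      (K : IntermediateField ℚ QBar) [NumberField K] (ζ : K) (_ : IsPrimitiveRoot ζ p) (z : K)
      (_ : IsPrimitiveRoot z (p ^ (n + 1))) (_ : z ^ p ^ n = ζ) (D : RD K p ζ),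
      LmT D.toRD0 c (n + 1) z ∧ PsT D.toRD0 c (n + 1) z := by
  have : NeZero p := ⟨hp.ne_zero⟩
  have : Fact p.Prime := ⟨hp⟩
  obtain ⟨nE, κ₁, hE⟩ := hE P hP
  obtain ⟨nR, hR⟩ := hR P hP
  obtain ⟨κ, hκ⟩ : ∃ κ : ℕ, ∀ x : P, x ^ (p ^ κ) = 1 := by
    obtain ⟨κ, hκ⟩ := IsPGroup.iff_card.1 hP
    exact ⟨κ, fun x => by rw [← hκ]; exact pow_card_eq_one'⟩
  obtain ⟨MB, hMB⟩ := hB κ (Nat.card P)
  obtain ⟨MG, hMG⟩ := hG κ
  obtain ⟨MG₁, hMG₁⟩ := hG κ₁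
  obtain ⟨n, hn⟩ : ∃ n : ℕ, n = nE + nR + MB + MG + MG₁ + 1 := ⟨_, rfl⟩
  refine ⟨n, fun N c hN hc K _ ζ hζ z hz hzζ D => ?_⟩
  have hM1 : MOne p K := mone_of' hp (show 2 ≤ n + 1 by omega) hz
  obtain ⟨zB, hzB⟩ := prm_pow' hp hz (show MB ≤ n + 1 by omega)
  obtain ⟨zG, hzG⟩ := prm_pow' hp hz (show MG ≤ n + 1 by omega)
  obtain ⟨zG₁, hzG₁⟩ := prm_pow' hp hz (show MG₁ ≤ n + 1 by omega)
  have hU : UBK D.toRD0 c := ubf hp hζ D.toRD0 κ hκ (hMG K ζ hζ zG hzG D)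
    (fun A => hMB K ζ hζ zB hzB D A) c
  have hG1 : GPU D.toRD0 QBar κ₁ := hMG₁ K ζ hζ zG₁ hzG₁ D
  have key : ∀ m, m ≤ n → IsPrimitiveRoot (z ^ p ^ (n - m)) (p ^ (m + 1)) ∧
      (z ^ p ^ (n - m)) ^ p ^ m = ζ := by
    intro m hm
    constructor
    · refine hz.pow (pow_pos hp.pos _) ?_
      rw [← pow_add]
      congr 1
      omega
    · rw [← pow_mul, ← pow_add, Nat.sub_add_cancel hm, hzζ]
  obtain ⟨e1, e2⟩ := key nE (by omega)
  obtain ⟨r1, r2⟩ := key nR (by omega)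
  have hE' : EQs D.toRD0 c (n + 1) z κ₁ := by
    intro L hL Fr Q hLQ φb φ' E hF
    refine hE N c hN hc K ζ hζ _ e1 e2 D L ?_ Fr Q hLQ φb φ' E hF
    have h := hL.mono (show nE + 1 ≤ n + 1 by omega)
    have h2 : n + 1 - (nE + 1) = n - nE := by omega
    rwa [h2] at h
  have hR' : NRs D.toRD0 c (n + 1) z := by
    intro L hL Fr Q hLQ φb φ' E hF
    refine hR N c hN K ζ hζ _ r1 r2 D L ?_ Fr Q hLQ φb φ' E hF
    have h := hL.mono (show nR + 1 ≤ n + 1 by omega)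
    have h2 : n + 1 - (nR + 1) = n - nR := by omega
    rwa [h2] at h
  exact ⟨lmt hp hM1 hζ hP hN D.toRD0 c (n + 1) κ₁ z hE' hR' hU hG1,
    pst hp hM1 hζ hP hN D.toRD0 c (n + 1) κ₁ z hE' hR' hU hG1⟩

end H12.S3
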