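import Pool.Agent.H12.S3.Smo
import Pool.Agent.H12.S3.Fsx
import Pool.Agent.H97.S3.Sht
import Pool.Agent.H71.S3.Cnw

/-!
# [H12 S3 SHP] the sharp form of the result of chapter B from the smooth form

* `shp`: `EQ1s → EQ1`. `shp3`: `EQ3s p → EQ3 p`.
* `cutf η`: the cut-off function `η` up to `1`, `0` from `1 + η` on; `η = (log Y)^(-A')`.
* `main_diff`: the main terms differ by at most `η` times the number of the configurations with `Y < nr ≤ (1 + η) Y` (`cnt_short`).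
* `Rmf`: the ramified primes in `Z`. `rho`: the proportion of the conjugators with rich letters; independent of `Z` (`rho_eq`). `wps_eq`, `wL_eq`: the weights in terms of `rho`.
* `hom_diff`: the sums over the homomorphisms differ by at most `η` times the number of the homomorphisms with `Y < nr ≤ (1 + η) Y`; `cnt_hom`: there are few of them.
-/

set_option autoImplicit false

open scoped NumberField
open IsDedekindDomain Filter Topology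
open scoped Classical

noncomputable section

namespace H12.S3

open H38.ML H63.MA H38.BB H38.BG H57.PC H57.BRA H38.AS H77.WD H77.WE H77.GL H77.PC3 H77.S0T H77.FLD H77.PLF
  H35.CF H35.UB H35.AC H51.PF H51.AC2 H51.F3 H24.RK H62.BL H86.AP

/-- the cut-off function `η` up to `1`, `0` from `1 + η` on -/
def cutf (η t : ℝ) : ℝ := min η (max 0 (1 + η - t))

theorem cutf_nn {η : ℝ} (h0 : 0 ≤ η) (t : ℝ) : 0 ≤ cutf η t := le_min h0 (le_max_left _ _)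

theorem cutf_le (η t : ℝ) : cutf η t ≤ η := min_le_left _ _

theorem cutf_one {η t : ℝ} (h0 : 0 ≤ η) (ht : t ≤ 1) : cutf η t = η := by
  unfold cutf
  rw [min_eq_left]
  exact le_max_of_le_right (by linarith)

theorem cutf_zero {η t : ℝ} (h0 : 0 ≤ η) (ht : 1 + η ≤ t) : cutf η t = 0 := by
  unfold cutf
  rw [max_eq_left (by linarith), min_eq_right h0]

theorem cutf_cut {η : ℝ} (h0 : 0 ≤ η) (h1 : η ≤ 1) : Cut (cutf η) where
  nn := cutf_nn h0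
  le t := (cutf_le η t).trans h1
  lip t u := by
    unfold cutf
    have h2 : |min η (max 0 (1 + η - t)) - min η (max 0 (1 + η - u))| ≤
        max |η - η| |max 0 (1 + η - t) - max 0 (1 + η - u)| := abs_min_sub_min_le_max _ _ _ _
    have h3 : |max 0 (1 + η - t) - max 0 (1 + η - u)| ≤
        max |(0 : ℝ) - 0| |(1 + η - t) - (1 + η - u)| := abs_max_sub_max_le_max _ _ _ _
    have h4 : |(1 + η - t) - (1 + η - u)| = |t - u| := by
      rw [show (1 + η - t) - (1 + η - u) = -(t - u) by ring, abs_neg]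
    rw [h4, sub_self, abs_zero, max_eq_right (abs_nonneg (t - u))] at h3
    rw [sub_self, abs_zero, max_eq_right (abs_nonneg (max 0 (1 + η - t) - max 0 (1 + η - u)))] at h2
    exact h2.trans h3
  van t ht := cutf_zero h0 (by linarith)

section mainterm

variable {K : IntermediateField ℚ QBar} [NumberField K] {p N : ℕ} {ζ : K} {D : RD0 K p ζ}
  {P : Type} [Group P]

theorem mem_zz' {Y : ℝ} {v : Pl K} : v ∈ ZZ D Y ↔ (nm v : ℝ) ≤ Y ∧ D.Gd v := by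
  unfold ZZ
  rw [Finset.mem_filter, H57.AN.mem_PB]

theorem nm_le_nr {n : Finset (Pl K)} {v : Pl K} (h : v ∈ n) : (nm v : ℝ) ≤ nr n := by
  have h1 : nr ({v} : Finset (Pl K)) = nm v := by
    unfold nr
    rw [Finset.prod_singleton]
  rw [← h1]
  exact nr_mono (Finset.singleton_subset_iff.2 h)

theorem sp_eq {Λ : Type} {W Z : Finset (Pl K)} (hWZ : W ⊆ Z) {f : Pl K → Option Λ}
    (hf : ∀ v, v ∉ W → f v = none) : sp W f = sp Z f := by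
  ext v
  rw [mem_sp, mem_sp]
  constructor
  · rintro ⟨h1, h2⟩
    exact ⟨hWZ h1, h2⟩
  · rintro ⟨-, h2⟩
    refine ⟨?_, h2⟩
    by_contra h
    exact h2 (hf v h)

theorem pl_eq {Λ : Type} {W Z : Finset (Pl K)} (hWZ : W ⊆ Z) {f : Pl K → Option Λ}
    (hf : ∀ v, v ∉ W → f v = none) (x : Λ) : pl W f x = pl Z f x := by
  ext v
  rw [mem_pl, mem_pl]
  constructor
  · rintro ⟨h1, h2⟩
    exact ⟨hWZ h1, h2⟩
  · rintro ⟨-, h2⟩
    refine ⟨?_, h2⟩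
    by_contra h
    rw [hf v h] at h2
    cases h2

theorem rcl_eq (c : CL p N P) {L : LDs D QBar} (Fr : FR L) (φb : Gal(QBar/K) →* P) (M : ℕ)
    (T₀ : ℝ) {W Z : Finset (Pl K)} (hWZ : W ⊆ Z) {f : Pl K → Option (Px c)}
    (hf : ∀ v, v ∉ W → f v = none) : Rcl c Fr φb M T₀ W f ↔ Rcl c Fr φb M T₀ Z f := by
  unfold Rcl
  refine forall_congr' fun x => ?_
  rw [pl_eq hWZ hf x]

theorem rrl_iff [Fintype P] (c : CL p N P) {L : LDs D QBar} (Fr : FR L) (φb : Gal(QBar/K) →* P)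
    (E : Finset (Pl K)) (M : ℕ) (T₀ Y : ℝ) (Z : Finset (Pl K)) (hZ : ∀ v ∈ Z, D.Gd v ∧ v ∉ E)
    (hZY : ∀ v, D.Gd v → v ∉ E → (nm v : ℝ) ≤ Y → v ∈ Z) (f : Pl K → Option (Px c)) :
    f ∈ RRL c Fr φb E M T₀ Y ↔ f ∈ Cf Z (Px c) ∧ Rcl c Fr φb M T₀ Z f ∧ nr (sp Z f) ≤ Y := by
  have hWZ : ZZ D Y \ E ⊆ Z := by
    intro v hv
    obtain ⟨h1, h2⟩ := Finset.mem_sdiff.1 hv
    obtain ⟨h3, h4⟩ := mem_zz'.1 h1
    exact hZY v h4 h2 h3
  unfold RRL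
  rw [Finset.mem_filter]
  constructor
  · rintro ⟨h1, h2, h3⟩
    have h4 := mem_cf.1 h1
    refine ⟨mem_cf.2 fun v hv => h4 v fun h => hv (hWZ h), (rcl_eq c Fr φb M T₀ hWZ h4).1 h2, ?_⟩
    rw [← sp_eq hWZ h4]
    exact h3
  · rintro ⟨h1, h2, h3⟩
    have h4 : ∀ v, v ∉ ZZ D Y \ E → f v = none := by
      intro v hv
      by_contra h
      have h5 : v ∈ Z := by
        by_contra h6
        exact h (mem_cf.1 h1 v h6)
      have h6 : v ∈ sp Z f := mem_sp.2 ⟨h5, h⟩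
      exact hv (Finset.mem_sdiff.2 ⟨mem_zz'.2 ⟨(nm_le_nr h6).trans h3, (hZ v h5).1⟩,
        (hZ v h5).2⟩)
    refine ⟨mem_cf.2 h4, (rcl_eq c Fr φb M T₀ hWZ h4).2 h2, ?_⟩
    rw [sp_eq hWZ h4]
    exact h3

theorem om_le {Λ : Type} (Z : Finset (Pl K)) (g : Pl K → Λ → ℂ) (hg : ∀ v x, ‖g v x‖ ≤ 1)
    (f : Pl K → Option Λ) : ‖om Z g f‖ ≤ 1 := by
  unfold om
  rw [norm_prod]
  refine Finset.prod_le_one (fun v _ => norm_nonneg _) fun v _ => ?_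
  rcases f v with _ | x
  · show ‖(1 : ℂ)‖ ≤ 1
    rw [norm_one]
  · exact hg v x

theorem hw_le [Finite P] {c : CL p N P} {G : Type} [Group G] {r : G →* P} (H : Phs c r) (z : H.Z)
    (s : Px c) (f : G) : ‖H.w z s f‖ ≤ 1 := by
  unfold Phs.w
  refine (norm_sum_le _ _).trans ?_
  have h1 : ∀ x, ‖(H.a s f x : ℂ) * H.e z s f x‖ = H.a s f x := by
    intro x
    rw [norm_mul, H.e_nm, mul_one, Complex.norm_real, Real.norm_of_nonneg (H.a_nn s f x)]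
  rw [Finset.sum_congr rfl fun x _ => h1 x, H.a_sum]
  exact gd_le_one _ _ _ _

theorem om_eq {Λ : Type} {W Z : Finset (Pl K)} (hWZ : W ⊆ Z) (g : Pl K → Λ → ℂ)
    {f : Pl K → Option Λ} (hf : ∀ v, v ∉ W → f v = none) : om W g f = om Z g f := by
  rw [om_sp, om_sp, sp_eq hWZ hf]

theorem zz_sub {Y : ℝ} {E Z : Finset (Pl K)}
    (hZY : ∀ v, D.Gd v → v ∉ E → (nm v : ℝ) ≤ Y → v ∈ Z) : ZZ D Y \ E ⊆ Z := by
  intro v hv
  obtain ⟨h1, h2⟩ := Finset.mem_sdiff.1 hv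
  obtain ⟨h3, h4⟩ := mem_zz'.1 h1
  exact hZY v h4 h2 h3

/-- the main terms -/
theorem main_diff [Fintype P] (c : CL p N P) {L : LDs D QBar} (Fr : FR L)
    (φb : Gal(QBar/K) →* P) (E : Finset (Pl K)) (M : ℕ) (T₀ : ℝ) {Y η : ℝ} (hη : 0 ≤ η)
    (hY : 0 < Y) (Z : Finset (Pl K)) (hZ : ∀ v ∈ Z, D.Gd v ∧ v ∉ E)
    (hZY : ∀ v, D.Gd v → v ∉ E → (nm v : ℝ) ≤ Y → v ∈ Z) (g : Pl K → Px c → ℂ)
    (hg : ∀ v x, ‖g v x‖ ≤ 1) :
    ‖∑ f ∈ Cf Z (Px c), (if Rcl c Fr φb M T₀ Z f then (cutf η (nr (sp Z f) / Y) : ℂ) else 0) *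
        om Z g f - (η : ℂ) * ∑ f ∈ RRL c Fr φb E M T₀ Y, om (ZZ D Y \ E) g f‖ ≤
      η * (((Cf Z (Px c)).filter fun f => Y < nr (sp Z f) ∧ nr (sp Z f) ≤ (1 + η) * Y).card : ℝ) := by
  have h1 : RRL c Fr φb E M T₀ Y =
      (Cf Z (Px c)).filter fun f => Rcl c Fr φb M T₀ Z f ∧ nr (sp Z f) ≤ Y := by
    ext f
    rw [rrl_iff c Fr φb E M T₀ Y Z hZ hZY, Finset.mem_filter]
  have h2 : ∑ f ∈ RRL c Fr φb E M T₀ Y, om (ZZ D Y \ E) g f =
      ∑ f ∈ Cf Z (Px c), if Rcl c Fr φb M T₀ Z f ∧ nr (sp Z f) ≤ Y then om Z g f else 0 := by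
    have h3 : ∀ f ∈ RRL c Fr φb E M T₀ Y, om (ZZ D Y \ E) g f = om Z g f := by
      intro f hf
      unfold RRL at hf
      exact om_eq (zz_sub hZY) g (mem_cf.1 (Finset.mem_filter.1 hf).1)
    rw [Finset.sum_congr rfl h3, h1, Finset.sum_filter]
  rw [h2, Finset.mul_sum, ← Finset.sum_sub_distrib]
  refine (norm_sum_le _ _).trans ?_
  have h3 : η * (((Cf Z (Px c)).filter fun f =>
      Y < nr (sp Z f) ∧ nr (sp Z f) ≤ (1 + η) * Y).card : ℝ) =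
      ∑ f ∈ Cf Z (Px c), if Y < nr (sp Z f) ∧ nr (sp Z f) ≤ (1 + η) * Y then η else 0 := by
    rw [← Finset.sum_filter, Finset.sum_const, nsmul_eq_mul, mul_comm]
  rw [h3]
  refine Finset.sum_le_sum fun f _ => ?_
  by_cases hR : Rcl c Fr φb M T₀ Z f
  · rcases le_or_gt (nr (sp Z f)) Y with hn | hn
    · rw [if_pos hR, if_pos ⟨hR, hn⟩, if_neg fun h => absurd h.1 (not_lt.2 hn),
        cutf_one hη ((div_le_one hY).2 hn), sub_self, norm_zero]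
    · rw [if_pos hR, if_neg fun h => absurd h.2 (not_le.2 hn), mul_zero, sub_zero, norm_mul,
        Complex.norm_real, Real.norm_of_nonneg (cutf_nn hη _)]
      rcases le_or_gt (nr (sp Z f)) ((1 + η) * Y) with hm | hm
      · rw [if_pos ⟨hn, hm⟩]
        calc cutf η (nr (sp Z f) / Y) * ‖om Z g f‖ ≤ η * 1 :=
              mul_le_mul (cutf_le _ _) (om_le Z g hg f) (norm_nonneg _) hη
          _ = η := mul_one η
      · rw [if_neg fun h => absurd h.2 (not_le.2 hm),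
          cutf_zero hη ((le_div_iff₀ hY).2 hm.le), zero_mul]
  · rw [if_neg hR, if_neg fun h => hR h.1, zero_mul, mul_zero, sub_zero, norm_zero]
    split_ifs
    · exact hη
    · exact le_rfl

end mainterm

section homs

variable {K : IntermediateField ℚ QBar} [NumberField K] {p N : ℕ} {ζ : K} {D : RD0 K p ζ}
  {P : Type} [Group P]

theorem lft_some (c : CL p N P) (L : LDs D QBar) {Z : Finset (Pl K)} {φ : Gal(QBar/K) →* P}
    {v : Pl K} (hv : v ∈ Z) (h1 : φ (L.t v) ≠ 1) (h2 : ∃ j, IsConj (φ (L.t v)) (c.g j))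
    (τ : Pl K → P) : ∃ h, lft c L Z φ τ v = some ⟨(τ v)⁻¹ * φ (L.t v) * τ v, h⟩ := by
  obtain ⟨j, hj⟩ := h2
  have h4 : ∃ i, IsConj ((τ v)⁻¹ * φ (L.t v) * τ v) (c.g i) :=
    ⟨j, (isConj_iff.2 ⟨τ v, by group⟩ : IsConj _ (φ (L.t v))).trans hj⟩
  refine ⟨h4, ?_⟩
  unfold lft
  rw [dif_pos ⟨hv, h1, h4⟩]

theorem lft_one (c : CL p N P) (L : LDs D QBar) {Z : Finset (Pl K)} {φ : Gal(QBar/K) →* P}
    {v : Pl K} (h1 : v ∈ Z → φ (L.t v) = 1) (τ : Pl K → P) : lft c L Z φ τ v = none := by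
  unfold lft
  rw [dif_neg fun h => h.2.1 (h1 h.1)]

/-- `n` is the set of the ramified primes in `Z`, all typed -/
structure Rmf (c : CL p N P) (L : LDs D QBar) (Z : Finset (Pl K)) (φ : Gal(QBar/K) →* P)
    (n : Finset (Pl K)) : Prop where
  sub : n ⊆ Z
  iff : ∀ v ∈ Z, v ∈ n ↔ φ (L.t v) ≠ 1
  ty : ∀ v ∈ n, ∃ j, IsConj (φ (L.t v)) (c.g j)

theorem Rmf.none {c : CL p N P} {L : LDs D QBar} {Z n : Finset (Pl K)} {φ : Gal(QBar/K) →* P}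
    (h : Rmf c L Z φ n) (τ : Pl K → P) (v : Pl K) (hv : v ∉ n) : lft c L Z φ τ v = none :=
  lft_one c L (fun hz => by
    by_contra h1
    exact hv ((h.iff v hz).2 h1)) τ

theorem Rmf.sp {c : CL p N P} {L : LDs D QBar} {Z n : Finset (Pl K)} {φ : Gal(QBar/K) →* P}
    (h : Rmf c L Z φ n) (τ : Pl K → P) : H35.CF.sp Z (lft c L Z φ τ) = n := by
  ext v
  rw [mem_sp]
  constructor
  · rintro ⟨-, h2⟩
    by_contra h3
    exact h2 (h.none τ v h3)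
  · intro hv
    have hz := h.sub hv
    obtain ⟨h1, h2⟩ := lft_some c L hz ((h.iff v hz).1 hv) (h.ty v hv) τ
    refine ⟨hz, ?_⟩
    rw [h2]
    exact Option.some_ne_none _

theorem Rmf.mono {c : CL p N P} {L : LDs D QBar} {Z W n : Finset (Pl K)}
    {φ : Gal(QBar/K) →* P} (h : Rmf c L Z φ n) (hWZ : W ⊆ Z) (hn : n ⊆ W) : Rmf c L W φ n :=
  ⟨hn, fun v hv => h.iff v (hWZ hv), h.ty⟩

theorem Rmf.congr {c : CL p N P} {L : LDs D QBar} {Z W n : Finset (Pl K)}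
    {φ : Gal(QBar/K) →* P} (h : Rmf c L Z φ n) (hWZ : W ⊆ Z) (hn : n ⊆ W) {τ τ' : Pl K → P}
    (hτ : ∀ v ∈ n, τ v = τ' v) : lft c L Z φ τ = lft c L W φ τ' := by
  funext v
  by_cases hv : v ∈ n
  · obtain ⟨h1, h2⟩ := lft_some c L (h.sub hv) ((h.iff v (h.sub hv)).1 hv) (h.ty v hv) τ
    obtain ⟨h3, h4⟩ := lft_some c L (hn hv) ((h.iff v (h.sub hv)).1 hv) (h.ty v hv) τ'
    rw [h2, h4]
    congr 2
    rw [hτ v hv]
  · rw [h.none τ v hv, (h.mono hWZ hn).none τ' v hv]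

/-- the proportion of the conjugators with rich letters -/
def rho [Fintype P] (c : CL p N P) {L : LDs D QBar} (Fr : FR L) (φb : Gal(QBar/K) →* P)
    (M : ℕ) (T₀ : ℝ) (Z : Finset (Pl K)) (φ : Gal(QBar/K) →* P) : ℝ :=
  (∑ τ : Z → Tc c, if Rcl c Fr φb M T₀ Z (lft c L Z φ (xt τ)) then 1 else 0) /
    (Nat.card (Tc c) : ℝ) ^ Z.card

theorem rho_nn [Fintype P] (c : CL p N P) {L : LDs D QBar} (Fr : FR L) (φb : Gal(QBar/K) →* P)
    (M : ℕ) (T₀ : ℝ) (Z : Finset (Pl K)) (φ : Gal(QBar/K) →* P) : 0 ≤ rho c Fr φb M T₀ Z φ := by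
  unfold rho
  refine div_nonneg (Finset.sum_nonneg fun τ _ => ?_) (by positivity)
  split_ifs
  · exact zero_le_one
  · exact le_rfl

theorem rho_le [Fintype P] (c : CL p N P) {L : LDs D QBar} (Fr : FR L) (φb : Gal(QBar/K) →* P)
    (M : ℕ) (T₀ : ℝ) (Z : Finset (Pl K)) (φ : Gal(QBar/K) →* P) : rho c Fr φb M T₀ Z φ ≤ 1 := by
  unfold rho
  have h0 : 0 < (Nat.card (Tc c) : ℝ) := by
    exact_mod_cast Nat.card_pos
  rw [div_le_one (by positivity)]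
  have h1 : ∀ τ : Z → Tc c, (if Rcl c Fr φb M T₀ Z (lft c L Z φ (xt τ)) then (1 : ℝ) else 0) ≤ 1 := by
    intro τ
    split_ifs
    · exact le_rfl
    · exact zero_le_one
  refine (Finset.sum_le_sum fun τ _ => h1 τ).trans (le_of_eq ?_)
  rw [Finset.sum_const, Finset.card_univ, Fintype.card_fun, Fintype.card_coe, nsmul_eq_mul, mul_one,
    Nat.card_eq_fintype_card, Nat.cast_pow]

theorem mean_real {A B : Type} [Group A] [Group B] [Fintype A] [Fintype B] (r : A →* B)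
    (hr : Function.Surjective r) (F : B → ℝ) :
    (∑ a, F (r a)) / (Fintype.card A : ℝ) = (∑ b, F b) / (Fintype.card B : ℝ) := by
  have h := H71.S3.mean_hom r hr fun b => (F b : ℂ)
  exact_mod_cast h

theorem rho_eq [Fintype P] {c : CL p N P} {L : LDs D QBar} (Fr : FR L) (φb : Gal(QBar/K) →* P)
    (M : ℕ) (T₀ : ℝ) {Z W n : Finset (Pl K)} {φ : Gal(QBar/K) →* P} (h : Rmf c L Z φ n)
    (hWZ : W ⊆ Z) (hn : n ⊆ W) : rho c Fr φb M T₀ Z φ = rho c Fr φb M T₀ W φ := by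
  let r : (Z → Tc c) →* (W → Tc c) :=
    { toFun := fun τ v => τ ⟨v.1, hWZ v.2⟩
      map_one' := rfl
      map_mul' := fun _ _ => rfl }
  have hr : Function.Surjective r := by
    intro σ
    refine ⟨fun v => if hv : v.1 ∈ W then σ ⟨v.1, hv⟩ else 1, ?_⟩
    funext v
    show (if hv : v.1 ∈ W then σ ⟨v.1, hv⟩ else 1) = σ v
    rw [dif_pos v.2]
  have h1 := mean_real r hr fun σ : W → Tc c =>
    if Rcl c Fr φb M T₀ W (lft c L W φ (xt σ)) then (1 : ℝ) else 0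
  have h2 : ∀ τ : Z → Tc c, (Rcl c Fr φb M T₀ W (lft c L W φ (xt (r τ))) ↔
      Rcl c Fr φb M T₀ Z (lft c L Z φ (xt τ))) := by
    intro τ
    have h3 : lft c L Z φ (xt τ) = lft c L W φ (xt (r τ)) := by
      refine h.congr hWZ hn fun v hv => ?_
      unfold xt
      rw [dif_pos (hWZ (hn hv)), dif_pos (hn hv)]
      rfl
    rw [h3]
    exact rcl_eq c Fr φb M T₀ hWZ fun v hv => (h.mono hWZ hn).none _ v fun h => hv (hn h)
  unfold rho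
  rw [Finset.sum_congr rfl fun τ _ => if_congr (h2 τ) rfl rfl] at h1
  rw [Fintype.card_fun, Fintype.card_fun, Fintype.card_coe, Fintype.card_coe, Nat.cast_pow,
    Nat.cast_pow] at h1
  rw [Nat.card_eq_fintype_card]
  exact h1

theorem wps_eq [Fintype P] {c : CL p N P} {L : LDs D QBar} (Fr : FR L) (φb : Gal(QBar/K) →* P)
    (M : ℕ) (T₀ Y : ℝ) {Z n : Finset (Pl K)} {φ : Gal(QBar/K) →* P} (h : Rmf c L Z φ n)
    (ψ : ℝ → ℝ) : wps c Fr φb M T₀ Y Z ψ φ = ψ (nr n / Y) * rho c Fr φb M T₀ Z φ := by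
  unfold wps rho
  rw [← mul_div_assoc, Finset.mul_sum]
  congr 1
  refine Finset.sum_congr rfl fun τ _ => ?_
  rw [h.sp, mul_ite, mul_one, mul_zero]

theorem wL_eq [Fintype P] {c : CL p N P} {L : LDs D QBar} (Fr : FR L) (φb : Gal(QBar/K) →* P)
    (E : Finset (Pl K)) (M : ℕ) (T₀ Y : ℝ) {n : Finset (Pl K)} {φ : Gal(QBar/K) →* P}
    (h : Rmf c L (ZZ D Y \ E) φ n) (hn : nr n ≤ Y) :
    wL c Fr φb E M T₀ Y φ = rho c Fr φb M T₀ (ZZ D Y \ E) φ := by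
  unfold wL rho
  congr 1
  refine Finset.sum_congr rfl fun τ _ => if_congr ?_ rfl rfl
  unfold RRL
  rw [Finset.mem_filter, h.sp]
  constructor
  · exact fun h1 => h1.2.1
  · exact fun h1 => ⟨mem_cf.2 fun v hv => h.none _ v fun h2 => hv (h.sub h2), h1, hn⟩

/-- `FS Y` in `FS (2 Y)` -/
theorem fs_half [Finite P] (hp : p.Prime) (hζ : IsPrimitiveRoot ζ p) (L : LDs D QBar) (Fr : FR L)
    (Q : DP K QBar) (hP : IsPGroup p P) (c : CL p N P) (φb φ' : Gal(QBar/K) →* P)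
    (E : Finset (Pl K)) {Y : ℝ} (hY : 0 ≤ Y) (φ : Gal(QBar/K) →* P) :
    φ ∈ FS L Fr Q c φb φ' E Y ↔ φ ∈ FS L Fr Q c φb φ' E (2 * Y) ∧ nr (nfs L E φ) ≤ Y := by
  constructor
  · intro h
    refine ⟨⟨h.1, h.2.1, h.2.2.1, h.2.2.2.1, h.2.2.2.2.1, h.2.2.2.2.2.1, fun X hX =>
      (h.2.2.2.2.2.2 X hX).trans (by linarith)⟩, h.2.2.2.2.2.2 _ fun v hv => ?_⟩
    exact (mem_nfs (fs_pu hp hζ L Fr Q hP c φb φ' E Y h) v).1 hv
  · rintro ⟨h, h1⟩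
    refine ⟨h.1, h.2.1, h.2.2.1, h.2.2.2.1, h.2.2.2.2.1, h.2.2.2.2.2.1, fun X hX =>
      le_trans (nr_mono fun v hv => ?_) h1⟩
    exact (mem_nfs (fs_pu hp hζ L Fr Q hP c φb φ' E _ h) v).2 (hX v hv)

theorem fs_rmf [Finite P] (hp : p.Prime) (hζ : IsPrimitiveRoot ζ p) (L : LDs D QBar) (Fr : FR L)
    (Q : DP K QBar) (hP : IsPGroup p P) (c : CL p N P) (φb φ' : Gal(QBar/K) →* P)
    (E : Finset (Pl K)) {Y : ℝ} {φ : Gal(QBar/K) →* P} (h : φ ∈ FS L Fr Q c φb φ' E Y)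
    (s : Pl K → Gal(QBar/K)) (Z : Finset (Pl K)) (hZ : ∀ v ∈ Z, D.Gd v ∧ v ∉ E)
    (hZY : ∀ v, D.Gd v → v ∉ E → (nm v : ℝ) ≤ nr (nfs L E φ) → v ∈ Z) :
    Rmf c (cjL L s) Z φ (nfs L E φ) := by
  have hm := mem_nfs (fs_pu hp hζ L Fr Q hP c φb φ' E Y h)
  have hcj : ∀ v, v ∉ D.S0 → IsConj (φ ((cjL L s).t v)) (φ (L.t v)) := by
    intro v hv
    rw [cj_t L s hv, map_mul, map_mul, map_inv]
    exact isConj_iff.2 ⟨(φ (s v))⁻¹, by group⟩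
  refine ⟨fun v hv => ?_, fun v hv => ?_, fun v hv => ?_⟩
  · obtain ⟨h1, h2, h3⟩ := (hm v).1 hv
    exact hZY v (h.2.2.2.2.2.1 v h1 h2 h3).1 h2 (nm_le_nr hv)
  · obtain ⟨h1, h2⟩ := hZ v hv
    rw [hm v]
    have h3 := hcj v h1.1
    constructor
    · rintro ⟨-, -, h4⟩ h5
      rw [h5] at h3
      exact h4 (isConj_one_right.1 h3)
    · intro h4
      refine ⟨h1.1, h2, fun h5 => h4 ?_⟩
      rw [h5] at h3
      exact isConj_one_right.1 h3.symm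
  · obtain ⟨h1, h2, h3⟩ := (hm v).1 hv
    obtain ⟨j, hj⟩ := (h.2.2.2.2.2.1 v h1 h2 h3).2
    exact ⟨j, (hcj v h1).trans hj⟩

/-- the homomorphisms -/
theorem hom_diff [Fintype P] (hp : p.Prime) (hζ : IsPrimitiveRoot ζ p) (L : LDs D QBar)
    (Fr : FR L) (Q : DP K QBar) (hP : IsPGroup p P) (c : CL p N P) (φb φ' : Gal(QBar/K) →* P)
    (E : Finset (Pl K)) (M : ℕ) (T₀ : ℝ) (s : Pl K → Gal(QBar/K)) {Y η : ℝ} (hη : 0 ≤ η)
    (hY : 0 < Y) (Z : Finset (Pl K)) (hZ : ∀ v ∈ Z, D.Gd v ∧ v ∉ E)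
    (hZY : ∀ v, D.Gd v → v ∉ E → (nm v : ℝ) ≤ 2 * Y → v ∈ Z) :
    |(∑ᶠ φ ∈ FS L Fr Q c φb φ' E (2 * Y), wps c (cjF Fr s) φb M T₀ Y Z (cutf η) φ) -
      η * ∑ᶠ φ ∈ FS L Fr Q c φb φ' E Y, wL c (cjF Fr s) φb E M T₀ Y φ| ≤
      η * ({φ | φ ∈ FS L Fr Q c φb φ' E (2 * Y) ∧ Y < nr (nfs L E φ) ∧
        nr (nfs L E φ) ≤ (1 + η) * Y}.ncard : ℝ) := by
  have hfin := fs_fin hp hζ L Fr Q hP c φb φ' E (2 * Y)
  have hfin1 := fs_fin hp hζ L Fr Q hP c φb φ' E Y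
  set F := hfin.toFinset with hF
  have hWZ : ZZ D Y \ E ⊆ Z := zz_sub fun v h1 h2 h3 => hZY v h1 h2 (by linarith)
  have hW : ∀ v ∈ ZZ D Y \ E, D.Gd v ∧ v ∉ E := fun v hv => hZ v (hWZ hv)
  have hF1 : hfin1.toFinset = F.filter fun φ => nr (nfs L E φ) ≤ Y := by
    ext φ
    rw [Set.Finite.mem_toFinset, Finset.mem_filter, hF, Set.Finite.mem_toFinset,
      fs_half hp hζ L Fr Q hP c φb φ' E hY.le]
  have hnc : ({φ | φ ∈ FS L Fr Q c φb φ' E (2 * Y) ∧ Y < nr (nfs L E φ) ∧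
        nr (nfs L E φ) ≤ (1 + η) * Y}.ncard : ℝ) =
      ∑ φ ∈ F, if Y < nr (nfs L E φ) ∧ nr (nfs L E φ) ≤ (1 + η) * Y then (1 : ℝ) else 0 := by
    have h1 : {φ | φ ∈ FS L Fr Q c φb φ' E (2 * Y) ∧ Y < nr (nfs L E φ) ∧
        nr (nfs L E φ) ≤ (1 + η) * Y} =
        ↑(F.filter fun φ => Y < nr (nfs L E φ) ∧ nr (nfs L E φ) ≤ (1 + η) * Y) := by
      ext φ
      rw [Finset.mem_coe, Finset.mem_filter, hF, Set.Finite.mem_toFinset]
      rfl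
    rw [h1, Set.ncard_coe_finset, Finset.sum_boole]
  rw [finsum_mem_eq_finite_toFinset_sum _ hfin, finsum_mem_eq_finite_toFinset_sum _ hfin1, hF1,
    Finset.sum_filter, Finset.mul_sum, ← Finset.sum_sub_distrib, hnc, Finset.mul_sum]
  refine (Finset.abs_sum_le_sum_abs _ _).trans (Finset.sum_le_sum fun φ hφ => ?_)
  have hφ2 : φ ∈ FS L Fr Q c φb φ' E (2 * Y) := (Set.Finite.mem_toFinset hfin).1 hφ
  have hn2 : nr (nfs L E φ) ≤ 2 * Y := hφ2.2.2.2.2.2.2 _ fun v hv =>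
    (mem_nfs (fs_pu hp hζ L Fr Q hP c φb φ' E _ hφ2) v).1 hv
  have hR : Rmf c (cjL L s) Z φ (nfs L E φ) := fs_rmf hp hζ L Fr Q hP c φb φ' E hφ2 s Z hZ
    fun v h1 h2 h3 => hZY v h1 h2 (h3.trans hn2)
  rw [wps_eq (cjF Fr s) φb M T₀ Y hR]
  rcases le_or_gt (nr (nfs L E φ)) Y with hn | hn
  · have hR1 : Rmf c (cjL L s) (ZZ D Y \ E) φ (nfs L E φ) :=
      fs_rmf hp hζ L Fr Q hP c φb φ' E hφ2 s _ hW fun v h1 h2 h3 =>
        Finset.mem_sdiff.2 ⟨mem_zz'.2 ⟨h3.trans hn, h1⟩, h2⟩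
    rw [if_pos hn, wL_eq (cjF Fr s) φb E M T₀ Y hR1 hn, cutf_one hη ((div_le_one hY).2 hn),
      rho_eq (cjF Fr s) φb M T₀ hR hWZ hR1.sub, sub_self, abs_zero]
    refine mul_nonneg hη ?_
    split_ifs
    · exact zero_le_one
    · exact le_rfl
  · rw [if_neg (not_le.2 hn), mul_zero, sub_zero]
    rcases le_or_gt (nr (nfs L E φ)) ((1 + η) * Y) with hm | hm
    · rw [if_pos ⟨hn, hm⟩, abs_of_nonneg (mul_nonneg (cutf_nn hη _) (rho_nn _ _ _ _ _ _ _))]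
      exact mul_le_mul (cutf_le _ _) (rho_le _ _ _ _ _ _ _) (rho_nn _ _ _ _ _ _ _) hη
    · rw [if_neg fun h => absurd h.2 (not_le.2 hm), cutf_zero hη ((le_div_iff₀ hY).2 hm.le),
        zero_mul, abs_zero, mul_zero]

/-- the homomorphisms with norm in a short interval -/
theorem cnt_hom [Fintype P] (hp : p.Prime) (hζ : IsPrimitiveRoot ζ p) (L : LDs D QBar)
    (Fr : FR L) (Q : DP K QBar) (hP : IsPGroup p P) (c : CL p N P) (φb φ' : Gal(QBar/K) →* P)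
    (E : Finset (Pl K)) (A₀ : ℝ) (hA₀ : 0 ≤ A₀) : ∃ C A' : ℝ, 0 < C ∧ 0 ≤ A' ∧ ∀ Y η : ℝ,
      3 ≤ Y → 0 ≤ η → η ≤ Real.log Y ^ (-A') →
      ({φ | φ ∈ FS L Fr Q c φb φ' E (2 * Y) ∧ Y < nr (nfs L E φ) ∧
        nr (nfs L E φ) ≤ (1 + η) * Y}.ncard : ℝ) ≤ C * Y * Real.log Y ^ (-A₀) := by
  obtain ⟨A⟩ := gs_exists hp hζ D QBar
  obtain ⟨C, A', hC, hA', h⟩ := H97.S3.cnt_short K P 1 A₀ zero_le_one hA₀
  refine ⟨C * (Fintype.card ((E → P) × (Fin A.g → P)) : ℝ), A', ?_, hA', fun Y η hY hη hη' => ?_⟩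
  · have : 0 < (Fintype.card ((E → P) × (Fin A.g → P)) : ℝ) := by
      exact_mod_cast Fintype.card_pos
    positivity
  have hY0 : 0 < Y := by linarith
  set Z := H57.AN.PB K (2 * Y) with hZdef
  set S0 := (Cf Z P).filter fun f => Y < nr (sp Z f) ∧ nr (sp Z f) ≤ (1 + η) * Y with hS0
  let Φ : (Gal(QBar/K) →* P) → (Pl K → Option P) × ((E → P) × (Fin A.g → P)) := fun φ =>
    (fun v => if v ∈ nfs L E φ then some (φ (L.t v)) else none,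
      (fun v => φ (L.t v), fun i => φ (A.a i)))
  let St : Finset ((Pl K → Option P) × ((E → P) × (Fin A.g → P))) := S0 ×ˢ Finset.univ
  set X := {φ | φ ∈ FS L Fr Q c φb φ' E (2 * Y) ∧ Y < nr (nfs L E φ) ∧
        nr (nfs L E φ) ≤ (1 + η) * Y} with hX
  have hpu : ∀ φ ∈ X, φ ∈ PU L c E (2 * Y) := fun φ hφ =>
    fs_pu hp hζ L Fr Q hP c φb φ' E _ hφ.1
  have hsp : ∀ φ ∈ X, sp Z (Φ φ).1 = nfs L E φ := by
    intro φ hφ
    ext v
    rw [mem_sp]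
    constructor
    · rintro ⟨-, h2⟩
      by_contra h3
      refine h2 ?_
      show (if v ∈ nfs L E φ then some (φ (L.t v)) else none) = none
      rw [if_neg h3]
    · intro hv
      refine ⟨?_, ?_⟩
      · rw [hZdef, H57.AN.mem_PB]
        refine (nm_le_nr hv).trans ?_
        exact hφ.1.2.2.2.2.2.2 _ fun v hv => (mem_nfs (hpu φ hφ) v).1 hv
      · show (if v ∈ nfs L E φ then some (φ (L.t v)) else none) ≠ none
        rw [if_pos hv]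
        exact Option.some_ne_none _
  have hmap : ∀ φ ∈ X, Φ φ ∈ (St : Set _) := by
    intro φ hφ
    rw [Finset.mem_coe, Finset.mem_product]
    refine ⟨?_, Finset.mem_univ _⟩
    rw [hS0, Finset.mem_filter, hsp φ hφ]
    refine ⟨mem_cf.2 fun v hv => ?_, hφ.2⟩
    show (if v ∈ nfs L E φ then some (φ (L.t v)) else none) = none
    rw [if_neg]
    intro h1
    rw [← hsp φ hφ] at h1
    exact hv (mem_sp.1 h1).1
  have hinj : Set.InjOn Φ X := by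
    intro φ hφ ψ hψ he
    have e0 : (Φ φ).1 = (Φ ψ).1 := congrArg Prod.fst he
    have e1 : nfs L E φ = nfs L E ψ := by
      rw [← hsp φ hφ, ← hsp ψ hψ, e0]
    have e2 : (Φ φ).2 = (Φ ψ).2 := congrArg Prod.snd he
    have hun : ∀ χ ∈ X, nfs L E χ = nfs L E φ → Unz L (nfs L E φ ∪ E) χ := by
      intro χ hχ hn
      refine ⟨hχ.1.1, fun v hv hz => ?_⟩
      by_contra h1
      apply hz
      by_cases hE : v ∈ E
      · exact Finset.mem_union_right _ hE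
      · refine Finset.mem_union_left _ ?_
        rw [← hn]
        exact (mem_nfs (hpu χ hχ) v).2 ⟨hv, hE, h1⟩
    refine hon_eqU hp hζ L A (nfs L E φ ∪ E) φ ψ (hun φ hφ rfl) (hun ψ hψ e1.symm)
      (hP.to_subgroup _) (hP.to_subgroup _) (fun v hv => ?_) fun i => ?_
    · rcases Finset.mem_union.1 hv with h1 | h1
      · have h2 := congrFun e0 v
        have h3 : (if v ∈ nfs L E φ then some (φ (L.t v)) else none) =
            if v ∈ nfs L E ψ then some (ψ (L.t v)) else none := h2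
        rw [← e1, if_pos h1, if_pos h1] at h3
        exact Option.some.inj h3
      · exact congrFun (congrArg Prod.fst e2) ⟨v, h1⟩
    · exact congrFun (congrArg Prod.snd e2) i
  have h1 : X.ncard ≤ St.card := by
    have := Set.ncard_le_ncard_of_injOn Φ hmap hinj St.finite_toSet
    rwa [Set.ncard_coe_finset] at this
  have h2 : (St.card : ℝ) = (S0.card : ℝ) * (Fintype.card ((E → P) × (Fin A.g → P)) : ℝ) := by
    rw [Finset.card_product, Nat.cast_mul, Finset.card_univ]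
  have h3 := h Z Y η hY hη hη'
  rw [← hS0, Finset.sum_congr rfl fun _ _ => one_pow _, Finset.sum_const, nsmul_eq_mul,
    mul_one] at h3
  calc (X.ncard : ℝ) ≤ (St.card : ℝ) := by exact_mod_cast h1
    _ = (S0.card : ℝ) * (Fintype.card ((E → P) × (Fin A.g → P)) : ℝ) := h2
    _ ≤ (C * Y * Real.log Y ^ (-A₀)) * (Fintype.card ((E → P) × (Fin A.g → P)) : ℝ) :=
        mul_le_mul_of_nonneg_right h3 (Nat.cast_nonneg _)
    _ = _ := by ring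

end homs

theorem shp {K : IntermediateField ℚ QBar} [NumberField K] {p N : ℕ} {ζ : K} (hp : p.Prime)
    (hζ : IsPrimitiveRoot ζ p) {P : Type} [Group P] [Fintype P] (hP : IsPGroup p P) {D : RD0 K p ζ}
    (L : LDs D QBar) (Fr : FR L) (Q : DP K QBar) (c : CL p N P) (φb φ' : Gal(QBar/K) →* P)
    (E : Finset (Pl K)) (κ₁ : ℕ) (h : EQ1s L Fr Q c φb φ' E κ₁) : EQ1 L Fr Q c φb φ' E κ₁ := by
  obtain ⟨G, iG, fG, r, φG, H, Yv, fY, b, κ, M₁, h1, h2, h3, h4, h5, h6, h⟩ := h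
  refine ⟨G, iG, fG, r, φG, H, Yv, fY, b, κ, M₁, h1, h2, h3, h4, h5, h6, fun M hM ε hε hε1 => ?_⟩
  obtain ⟨C₁, A₁, hC₁, hA₁, hc1⟩ := cnt_hom hp hζ L Fr Q hP c φb φ' E 2 (by norm_num)
  obtain ⟨C₂, A₂, hC₂, hA₂, hc2⟩ := H97.S3.cnt_short K (Px c) 1 2 zero_le_one (by norm_num)
  obtain ⟨A', hA'⟩ : ∃ A' : ℝ, A' = max A₁ A₂ := ⟨_, rfl⟩
  have hA1 : A₁ ≤ A' := by
    rw [hA']
    exact le_max_left _ _
  have hA2 : A₂ ≤ A' := by
    rw [hA']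
    exact le_max_right _ _
  obtain ⟨A, hA⟩ := exists_nat_ge (A' + 2)
  obtain ⟨C₀, m, C, hG⟩ := h M hM ε hε hε1 A
  obtain ⟨B, hB⟩ : ∃ B : ℝ, B = κ * ∑ z : H.Z, ‖∑ y, b y z‖ := ⟨_, rfl⟩
  have hB0 : 0 ≤ B := by
    rw [hB]
    exact mul_nonneg h5.le (Finset.sum_nonneg fun z _ => norm_nonneg _)
  refine ⟨m, C, fun C' => ?_⟩
  obtain ⟨Y₀, hY₀⟩ := hG C'
  refine ⟨max Y₀ (max 3 (Real.exp (|C₀| + C₁ + B * C₂))), fun Y hY s hs hgl => ?_⟩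
  obtain ⟨Z, hZ, hZY, hψ⟩ := hY₀ Y ((le_max_left _ _).trans hY) s hs hgl
  have hY3 : 3 ≤ Y := ((le_max_left _ _).trans (le_max_right _ _)).trans hY
  have hYe : Real.exp (|C₀| + C₁ + B * C₂) ≤ Y :=
    ((le_max_right _ _).trans (le_max_right _ _)).trans hY
  have hY0 : 0 < Y := by linarith
  obtain ⟨ℓ, hℓ⟩ : ∃ ℓ, ℓ = Real.log Y := ⟨_, rfl⟩
  have hl1 : 1 ≤ ℓ := by
    rw [hℓ, Real.le_log_iff_exp_le hY0]
    exact (Real.exp_one_lt_d9.le.trans (by norm_num)).trans hY3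
  have hl0 : 0 < ℓ := by linarith
  have hlC : |C₀| + C₁ + B * C₂ ≤ ℓ := by
    rw [hℓ, Real.le_log_iff_exp_le hY0]
    exact hYe
  obtain ⟨η, hη⟩ : ∃ η, η = ℓ ^ (-A') := ⟨_, rfl⟩
  have hη0 : 0 < η := by
    rw [hη]
    exact Real.rpow_pos_of_pos hl0 _
  have hη1 : η ≤ 1 := by
    rw [hη]
    exact Real.rpow_le_one_of_one_le_of_nonpos hl1 (by linarith)
  have hηA : ∀ a : ℝ, a ≤ A' → η ≤ Real.log Y ^ (-a) := by
    intro a ha
    rw [hη, ← hℓ]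
    exact Real.rpow_le_rpow_of_exponent_le hl1 (by linarith)
  have e1 := hψ (cutf η) (cutf_cut hη0.le hη1)
  have e2 := hom_diff hp hζ L Fr Q hP c φb φ' E M (T0 ε Y) s hη0.le hY0 Z hZ hZY
  have e2' := hc1 Y η hY3 hη0.le (hηA A₁ hA1)
  have e3' : (((Cf Z (Px c)).filter fun f => Y < nr (sp Z f) ∧ nr (sp Z f) ≤ (1 + η) * Y).card : ℝ) ≤
      C₂ * Y * Real.log Y ^ (-(2 : ℝ)) := by
    have h7 := hc2 Z Y η hY3 hη0.le (hηA A₂ hA2)
    rw [Finset.sum_congr rfl fun _ _ => one_pow _, Finset.sum_const, nsmul_eq_mul, mul_one] at h7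
    exact h7
  rw [← hℓ] at e1 e2' e3' ⊢
  set S : ℝ := ∑ᶠ φ ∈ FS L Fr Q c φb φ' E (2 * Y),
    wps c (cjF Fr s) φb M (T0 ε Y) Y Z (cutf η) φ with hS
  set S' : ℝ := ∑ᶠ φ ∈ FS L Fr Q c φb φ' E Y, wL c (cjF Fr s) φb E M (T0 ε Y) Y φ with hS'
  set g : H.Z → Pl K → Px c → ℂ := fun z v x => H.w z x (φG ((cjF Fr s).F v)) with hg
  set Tz : H.Z → ℂ := fun z => ∑ f ∈ Cf Z (Px c),
    (if Rcl c (cjF Fr s) φb M (T0 ε Y) Z f then (cutf η (nr (sp Z f) / Y) : ℂ) else 0) *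
      om Z (g z) f with hTz
  set Tz' : H.Z → ℂ := fun z => ∑ f ∈ RRL c (cjF Fr s) φb E M (T0 ε Y) Y,
    om (ZZ D Y \ E) (g z) f with hTz'
  have e3 : ∀ z, ‖Tz z - (η : ℂ) * Tz' z‖ ≤ η * (C₂ * Y * ℓ ^ (-(2 : ℝ))) := by
    intro z
    refine (main_diff c (cjF Fr s) φb E M (T0 ε Y) hη0.le hY0 Z hZ
      (fun v a1 a2 a3 => hZY v a1 a2 (by linarith)) (g z) fun v x => hw_le H z x _).trans ?_
    exact mul_le_mul_of_nonneg_left e3' hη0.le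
  have e1' : ‖(S : ℂ) - (κ : ℂ) * ∑ z : H.Z, (∑ y, b y z) * Tz z‖ ≤ C₀ * (Y * ℓ ^ (-(A : ℝ))) := e1
  show ‖(S' : ℂ) - (κ : ℂ) * ∑ z : H.Z, (∑ y, b y z) * Tz' z‖ ≤ Y * ℓ⁻¹
  have e4 : (η : ℂ) * ((S' : ℂ) - (κ : ℂ) * ∑ z : H.Z, (∑ y, b y z) * Tz' z) =
      ((S : ℂ) - (κ : ℂ) * ∑ z : H.Z, (∑ y, b y z) * Tz z) - ((S - η * S' : ℝ) : ℂ) +
        (κ : ℂ) * ∑ z : H.Z, (∑ y, b y z) * (Tz z - (η : ℂ) * Tz' z) := by
    have e5 : ∑ z : H.Z, (∑ y, b y z) * (Tz z - (η : ℂ) * Tz' z) =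
        ∑ z : H.Z, (∑ y, b y z) * Tz z - (η : ℂ) * ∑ z : H.Z, (∑ y, b y z) * Tz' z := by
      rw [Finset.mul_sum, ← Finset.sum_sub_distrib]
      refine Finset.sum_congr rfl fun z _ => ?_
      ring
    rw [e5]
    push_cast
    ring
  have e6 : ‖(κ : ℂ) * ∑ z : H.Z, (∑ y, b y z) * (Tz z - (η : ℂ) * Tz' z)‖ ≤
      B * (η * (C₂ * Y * ℓ ^ (-(2 : ℝ)))) := by
    rw [norm_mul, Complex.norm_real, Real.norm_of_nonneg h5.le, hB, mul_assoc, Finset.sum_mul]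
    refine mul_le_mul_of_nonneg_left ((norm_sum_le _ _).trans (Finset.sum_le_sum fun z _ => ?_))
      h5.le
    rw [norm_mul]
    exact mul_le_mul_of_nonneg_left (e3 z) (norm_nonneg _)
  have e7 : ‖((S - η * S' : ℝ) : ℂ)‖ ≤ η * (C₁ * Y * ℓ ^ (-(2 : ℝ))) := by
    rw [Complex.norm_real, Real.norm_eq_abs]
    exact e2.trans (mul_le_mul_of_nonneg_left e2' hη0.le)
  have e8 : ℓ ^ (-(A : ℝ)) ≤ η * ℓ ^ (-(2 : ℝ)) := by
    rw [hη, ← Real.rpow_add hl0]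
    exact Real.rpow_le_rpow_of_exponent_le hl1 (by linarith)
  have e9 : ℓ ^ (-(2 : ℝ)) * ℓ = ℓ⁻¹ := by
    rw [Real.rpow_neg hl0.le, Real.rpow_two]
    field_simp
  have hl2 : 0 < ℓ ^ (-(2 : ℝ)) := Real.rpow_pos_of_pos hl0 _
  have e10 : η * ‖(S' : ℂ) - (κ : ℂ) * ∑ z : H.Z, (∑ y, b y z) * Tz' z‖ ≤ η * (Y * ℓ⁻¹) := by
    calc η * ‖(S' : ℂ) - (κ : ℂ) * ∑ z : H.Z, (∑ y, b y z) * Tz' z‖ =
          ‖(η : ℂ) * ((S' : ℂ) - (κ : ℂ) * ∑ z : H.Z, (∑ y, b y z) * Tz' z)‖ := by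
          rw [norm_mul, Complex.norm_real, Real.norm_of_nonneg hη0.le]
      _ ≤ C₀ * (Y * ℓ ^ (-(A : ℝ))) + η * (C₁ * Y * ℓ ^ (-(2 : ℝ))) +
          B * (η * (C₂ * Y * ℓ ^ (-(2 : ℝ)))) := by
          rw [e4]
          refine (norm_add_le _ _).trans (add_le_add ((norm_sub_le _ _).trans
            (add_le_add e1' e7)) e6)
      _ ≤ |C₀| * (Y * (η * ℓ ^ (-(2 : ℝ)))) + η * (C₁ * Y * ℓ ^ (-(2 : ℝ))) +
          B * (η * (C₂ * Y * ℓ ^ (-(2 : ℝ)))) := by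
          have a1 : 0 ≤ Y * ℓ ^ (-(A : ℝ)) := mul_nonneg hY0.le (Real.rpow_nonneg hl0.le _)
          have a2 : C₀ * (Y * ℓ ^ (-(A : ℝ))) ≤ |C₀| * (Y * ℓ ^ (-(A : ℝ))) :=
            mul_le_mul_of_nonneg_right (le_abs_self _) a1
          have a3 : |C₀| * (Y * ℓ ^ (-(A : ℝ))) ≤ |C₀| * (Y * (η * ℓ ^ (-(2 : ℝ)))) :=
            mul_le_mul_of_nonneg_left (mul_le_mul_of_nonneg_left e8 hY0.le) (abs_nonneg _)
          linarith
      _ = (|C₀| + C₁ + B * C₂) * (η * Y * ℓ ^ (-(2 : ℝ))) := by ring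
      _ ≤ ℓ * (η * Y * ℓ ^ (-(2 : ℝ))) :=
          mul_le_mul_of_nonneg_right hlC (by positivity)
      _ = η * (Y * (ℓ ^ (-(2 : ℝ)) * ℓ)) := by ring
      _ = η * (Y * ℓ⁻¹) := by rw [e9]
  exact le_of_mul_le_mul_left e10 hη0

theorem shp3 {p : ℕ} (hp : p.Prime) (h : EQ3s p) : EQ3 p := by
  intro P _ _ hP
  obtain ⟨n, κ₁, h⟩ := h P hP
  exact ⟨n, κ₁, fun N c hN hc K _ ζ hζ z hz hzζ D L hL Fr Q hLQ φb φ' E hF =>
    shp hp hζ hP L Fr Q c φb φ' E κ₁ (h N c hN hc K ζ hζ z hz hzζ D L hL Fr Q hLQ φb φ' E hF)⟩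

end H12.S3
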