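import Pool.Agent.H12.S3.Defs

/-!
# [H12 S3 SMO] the smooth form of the result of chapter B, definitions

* `Rcl Z f`: every letter occurs at `M` primes `v ∈ Z` with `T₀ < nm v`, `φb (F v) = 1`.
* `wps ψ φ`: the mean over the conjugators `τ : Z → Tc c` of `ψ (nr / Y)` over the rich letters.
* `Cut ψ`: `0 ≤ ψ ≤ 1`, 1-Lipschitz, `0` from `2` on.
* `EQ1s`: as `EQ1`, for all cut-off functions `ψ` and all `A`; `Z` is a finite set of good primes outside `E` which contains all those of norm at most `2 Y`.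
* `EQ3s p`: for all `p`-groups.
-/

set_option autoImplicit false

open scoped NumberField
open IsDedekindDomain Filter Topology
open scoped Classical

noncomputable section

namespace H12.S3

open H38.ML H63.MA H38.BB H38.BG H57.PC H57.BRA H38.AS H77.WD H77.WE H77.GL H77.PC3 H77.S0T H77.FLD H77.PLF
  H35.CF H35.UB H35.AC H51.PF H51.AC2 H51.F3 H24.RK H62.BL H86.AP

/-- the cut-off functions -/
structure Cut (ψ : ℝ → ℝ) : Prop where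
  nn : ∀ t, 0 ≤ ψ t
  le : ∀ t, ψ t ≤ 1
  lip : ∀ t u, |ψ t - ψ u| ≤ |t - u|
  van : ∀ t, 2 ≤ t → ψ t = 0

section fib

variable {K : IntermediateField ℚ QBar} [NumberField K] {p N : ℕ} {ζ : K} {D : RD0 K p ζ}
  {P : Type} [Group P]

/-- the letters are rich -/
def Rcl (c : CL p N P) {L : LDs D QBar} (Fr : FR L) (φb : Gal(QBar/K) →* P)
    (M : ℕ) (T₀ : ℝ) (Z : Finset (Pl K)) (f : Pl K → Option (Px c)) : Prop :=
  ∀ x : Px c, M ≤ ((pl Z f x).filter fun v => T₀ < (nm v : ℝ) ∧ φb (Fr.F v) = 1).card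

/-- the weight of a homomorphism -/
def wps [Fintype P] (c : CL p N P) {L : LDs D QBar} (Fr : FR L) (φb : Gal(QBar/K) →* P)
    (M : ℕ) (T₀ Y : ℝ) (Z : Finset (Pl K)) (ψ : ℝ → ℝ) (φ : Gal(QBar/K) →* P) : ℝ :=
  (∑ τ : Z → Tc c,
    if Rcl c Fr φb M T₀ Z (lft c L Z φ (xt τ)) then ψ (nr (sp Z (lft c L Z φ (xt τ))) / Y)
    else 0) / (Nat.card (Tc c) : ℝ) ^ Z.card

/-- THE RESULT OF CHAPTER B for one fibre and one type, smooth form -/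
def EQ1s [Fintype P] (L : LDs D QBar) (Fr : FR L) (Q : DP K QBar) (c : CL p N P)
    (φb φ' : Gal(QBar/K) →* P) (E : Finset (Pl K)) (κ₁ : ℕ) : Prop :=
  ∃ (G : Type) (_ : Group G) (_ : Fintype G) (r : G →* P) (φG : Gal(QBar/K) →* G) (H : Phs c r)
    (Yv : Type) (_ : Fintype Yv) (b : Yv → H.Z →* ℂ) (κ : ℝ) (M₁ : ℕ),
    (∀ g : G, g ^ p ^ κ₁ = 1) ∧ Function.Surjective φG ∧ r.comp φG = φb ∧ Unz L E φG ∧ 0 < κ ∧
    (φ' = φb → ∃ y, b y = 1) ∧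
    ∀ M : ℕ, M₁ ≤ M → ∀ ε : ℝ, 0 < ε → ε < 1 → ∀ A : ℕ, ∃ C₀ : ℝ, Gpl p Fr E fun Y s =>
      ∃ Z : Finset (Pl K), (∀ v ∈ Z, D.Gd v ∧ v ∉ E) ∧
        (∀ v, D.Gd v → v ∉ E → (nm v : ℝ) ≤ 2 * Y → v ∈ Z) ∧ ∀ ψ : ℝ → ℝ, Cut ψ →
      ‖((∑ᶠ φ ∈ FS L Fr Q c φb φ' E (2 * Y),
          wps c (cjF Fr s) φb M (T0 ε Y) Y Z ψ φ : ℝ) : ℂ) -
        (κ : ℂ) * ∑ z : H.Z, (∑ y, b y z) * ∑ f ∈ Cf Z (Px c),
          (if Rcl c (cjF Fr s) φb M (T0 ε Y) Z f then (ψ (nr (sp Z f) / Y) : ℂ) else 0) *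
            om Z (fun v x => H.w z x (φG ((cjF Fr s).F v))) f‖ ≤
        C₀ * (Y * Real.log Y ^ (-(A : ℝ)))

/-- chapter B for all fibres and types, smooth form -/
def EQss [Fintype P] (D : RD0 K p ζ) (c : CL p N P) (n : ℕ) (z : K) (κ₁ : ℕ) : Prop :=
  ∀ (L : LDs D QBar) (_ : NL n z L) (Fr : FR L) (Q : DP K QBar) (_ : LQ L Q)
    (φb φ' : Gal(QBar/K) →* P) (E : Finset (Pl K)), Fib L c φb φ' E →
    EQ1s L Fr Q c φb φ' E κ₁

end fib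

/-- chapter B for all `p`-groups, smooth form -/
def EQ3s (p : ℕ) : Prop :=
  ∀ (P : Type) [Group P] [Fintype P] (_ : IsPGroup p P), ∃ n κ₁ : ℕ,
    ∀ (N : ℕ) (c : CL p N P) (_ : 1 ≤ N) (_ : C4 c)
      (K : IntermediateField ℚ QBar) [NumberField K] (ζ : K) (_ : IsPrimitiveRoot ζ p) (z : K)
      (_ : IsPrimitiveRoot z (p ^ (n + 1))) (_ : z ^ p ^ n = ζ) (D : RD K p ζ),
      EQss D.toRD0 c (n + 1) z κ₁

end H12.S3
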