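import Pool.Agent.H51.F3.Defs
import Pool.Agent.H62.BL.Sma
import Pool.Agent.H77.WE.GlU
import Pool.Agent.H86.AP.Df

/-!
# [H12 S3 DEFS] MP_b39724_nt, stage 3, chapter D (think 1710): the interface between chapter B and the limit

`P` a finite `p`-group, `c : CL p N P`, `Tc c` the normal closure of the `c.g i`, `Px c` the labels (letters). ONE FIBRE: `L`, `Fr` places, `φb : Γ → P` onto, unramified outside `S0 ∪ E`, `φ'` a type (any
homomorphism equal to `φb` modulo `Tc c`).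
* `Gpl p Fr E R`: `R Y s` holds for all good places (`GLp` of H62/BL/Sma, `s v = 1` for `v ∈ E`) for large `Y`. It is a filter: see Gpf.lean.
* `FS L Fr Q c φb φ' E Y`: the surjective homomorphisms of the fibre and of the type `φ'` (at `S0`: `TqT`; at `v ∈ E`: the values at `t v`, `F v` up to conjugation by `Tc c`), outside `S0 ∪ E` unramified or good and
  typed, the product of the norms of the ramified primes outside `S0 ∪ E` at most `Y`.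
* `lft c L Z φ τ`: the letters `(τ v)⁻¹ φ(t v) (τ v)`. `RRL`: the rich configurations of letters: every letter at `M` primes `v` with `T₀ < nm v` and `φb (F v) = 1`. `wL φ`: the proportion of the `τ : Z → Tc c` for which
  the letters are in `RRL`.
* `Phs c r`: phases: for `z` in the finite commutative group `Z` the factor `w z s f = ∑ x, a s f x * e z s f x`, `a ≥ 0` of sum `Gd (Tc c) 0 s (r f)`, `e` of norm 1, multiplicative in `z`, and a neutral step.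
* `EQ1`: the result of chapter B for one fibre and one type. `EQs`: for all fibres and types. `EQ3 p`: for all `p`-groups.
* `rn x φ`: the number of the `v ∉ E` with `T₀ < nm v`, `φb (F v) = 1`, `φ (t v)` conjugate to `x` under `Tc c`. `NR1`: the bound for `∑ z ^ rn` over the class-rich homomorphisms (D5 (b)).
* `LmT`, `PsT`: the asymptotic formula for `SYT`, the positivity (for places normalised by `z`).
-/

set_option autoImplicit false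

open scoped NumberField
open IsDedekindDomain Filter Topology
open scoped Classical

noncomputable section

namespace H12.S3

open H38.ML H63.MA H38.BB H38.BG H57.PC H57.BRA H38.AS H77.WD H77.WE H77.GL H77.PC3 H77.S0T H77.FLD H77.PLF
  H35.CF H35.UB H35.AC H51.PF H51.AC2 H51.F3 H24.RK H62.BL H86.AP

section gpl

variable {K : Type} [Field K] [NumberField K] {Ω : Type} [Field Ω] [Algebra K Ω] {ζ : K}

/-- `R Y s` holds for all good places, for large `Y` -/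
def Gpl (p : ℕ) {D : RD0 K p ζ} {L : LDs D Ω} (Fr : FR L) (E : Finset (Pl K))
    (R : ℝ → (Pl K → Gal(Ω/K)) → Prop) : Prop :=
  ∃ M C : ℕ, ∀ C' : ℕ, ∃ Y₀ : ℝ, ∀ Y : ℝ, Y₀ ≤ Y → ∀ s : Pl K → Gal(Ω/K), (∀ v ∈ E, s v = 1) →
    GLp p (cjF Fr s) M C C' Y → R Y s

end gpl

section phs

variable {p N : ℕ} {P : Type} [Group P]

/-- the phases -/
structure Phs (c : CL p N P) {G : Type} [Group G] (r : G →* P) where
  X : Type
  fX : Fintype X
  Z : Type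
  gZ : CommGroup Z
  fZ : Fintype Z
  a : Px c → G → X → ℝ
  e : Z → Px c → G → X → ℂ
  a_nn : ∀ s f x, 0 ≤ a s f x
  a_sum : ∀ s f, ∑ x, a s f x = Gd (Tc c) 0 s.1 (r f)
  e_nm : ∀ z s f x, ‖e z s f x‖ = 1
  e_mul : ∀ z z' s f x, e (z * z') s f x = e z s f x * e z' s f x
  one : ∀ s, ∃ x, 0 < a s 1 x ∧ ∀ z, e z s 1 x = 1

instance {c : CL p N P} {G : Type} [Group G] {r : G →* P} (H : Phs c r) : Fintype H.X := H.fX

instance {c : CL p N P} {G : Type} [Group G] {r : G →* P} (H : Phs c r) : CommGroup H.Z := H.gZ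

instance {c : CL p N P} {G : Type} [Group G] {r : G →* P} (H : Phs c r) : Fintype H.Z := H.fZ

/-- the factor of a prime -/
def Phs.w {c : CL p N P} {G : Type} [Group G] {r : G →* P} (H : Phs c r) (z : H.Z) (s : Px c)
    (f : G) : ℂ := ∑ x, (H.a s f x : ℂ) * H.e z s f x

end phs

section fib

variable {K : IntermediateField ℚ QBar} [NumberField K] {p N : ℕ} {ζ : K} {D : RD0 K p ζ}
  {P : Type} [Group P]

/-- the homomorphisms of the fibre and of the type -/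
def FS (L : LDs D QBar) (Fr : FR L) (Q : DP K QBar) (c : CL p N P)
    (φb φ' : Gal(QBar/K) →* P) (E : Finset (Pl K)) (Y : ℝ) : Set (Gal(QBar/K) →* P) :=
  {φ | FT φ ∧ Function.Surjective φ ∧ (∀ σ, (φb σ)⁻¹ * φ σ ∈ Tc c) ∧ TqT D.S0 Q (Tc c) φ φ' ∧
    (∀ v ∈ E, ∃ g ∈ Tc c, φ (L.t v) = g * φ' (L.t v) * g⁻¹ ∧ φ (Fr.F v) = g * φ' (Fr.F v) * g⁻¹) ∧
    (∀ v, v ∉ D.S0 → v ∉ E → φ (L.t v) ≠ 1 → D.Gd v ∧ ∃ j, IsConj (φ (L.t v)) (c.g j)) ∧
    ∀ X : Finset (Pl K), (∀ v ∈ X, v ∉ D.S0 ∧ v ∉ E ∧ φ (L.t v) ≠ 1) → nr X ≤ Y}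

/-- the letters of a homomorphism -/
def lft (c : CL p N P) (L : LDs D QBar) (Z : Finset (Pl K)) (φ : Gal(QBar/K) →* P)
    (τ : Pl K → P) : Pl K → Option (Px c) := fun v =>
  if h : v ∈ Z ∧ φ (L.t v) ≠ 1 ∧ ∃ i, IsConj ((τ v)⁻¹ * φ (L.t v) * τ v) (c.g i) then
    some ⟨(τ v)⁻¹ * φ (L.t v) * τ v, h.2.2⟩ else none

/-- the rich configurations of letters -/
def RRL [Fintype P] (c : CL p N P) {L : LDs D QBar} (Fr : FR L) (φb : Gal(QBar/K) →* P)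
    (E : Finset (Pl K)) (M : ℕ) (T₀ Y : ℝ) : Finset (Pl K → Option (Px c)) :=
  (Cf (ZZ D Y \ E) (Px c)).filter fun f =>
    (∀ x : Px c, M ≤ ((pl (ZZ D Y \ E) f x).filter fun v =>
      T₀ < (nm v : ℝ) ∧ φb (Fr.F v) = 1).card) ∧ nr (sp (ZZ D Y \ E) f) ≤ Y

/-- extension by `1` -/
def xt {T : Subgroup P} {Z : Finset (Pl K)} (τ : Z → T) (v : Pl K) : P :=
  if h : v ∈ Z then (τ ⟨v, h⟩ : P) else 1

/-- the proportion of the conjugators for which the letters are rich -/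
def wL [Fintype P] (c : CL p N P) {L : LDs D QBar} (Fr : FR L) (φb : Gal(QBar/K) →* P)
    (E : Finset (Pl K)) (M : ℕ) (T₀ Y : ℝ) (φ : Gal(QBar/K) →* P) : ℝ :=
  (∑ τ : ↥(ZZ D Y \ E) → Tc c,
    if lft c L (ZZ D Y \ E) φ (xt τ) ∈ RRL c Fr φb E M T₀ Y then 1 else 0) /
    (Nat.card (Tc c) : ℝ) ^ (ZZ D Y \ E).card

/-- the number of the large split primes with `φ (t v)` in the `Tc c`-class of `x` -/
def rn (c : CL p N P) {L : LDs D QBar} (Fr : FR L) (φb : Gal(QBar/K) →* P)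
    (E : Finset (Pl K)) (T₀ : ℝ) (x : Px c) (φ : Gal(QBar/K) →* P) : ℕ :=
  {v : Pl K | v ∉ E ∧ T₀ < (nm v : ℝ) ∧ D.Gd v ∧ φb (Fr.F v) = 1 ∧
    ∃ t ∈ Tc c, φ (L.t v) = t * x.1 * t⁻¹}.ncard

/-- THE RESULT OF CHAPTER B for one fibre and one type -/
def EQ1 [Fintype P] (L : LDs D QBar) (Fr : FR L) (Q : DP K QBar) (c : CL p N P)
    (φb φ' : Gal(QBar/K) →* P) (E : Finset (Pl K)) (κ₁ : ℕ) : Prop :=
  ∃ (G : Type) (_ : Group G) (_ : Fintype G) (r : G →* P) (φG : Gal(QBar/K) →* G) (H : Phs c r)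
    (Yv : Type) (_ : Fintype Yv) (b : Yv → H.Z →* ℂ) (κ : ℝ) (M₁ : ℕ),
    (∀ g : G, g ^ p ^ κ₁ = 1) ∧ Function.Surjective φG ∧ r.comp φG = φb ∧ Unz L E φG ∧ 0 < κ ∧
    (φ' = φb → ∃ y, b y = 1) ∧
    ∀ M : ℕ, M₁ ≤ M → ∀ ε : ℝ, 0 < ε → ε < 1 → Gpl p Fr E fun Y s =>
      ‖((∑ᶠ φ ∈ FS L Fr Q c φb φ' E Y,
          wL c (cjF Fr s) φb E M (T0 ε Y) Y φ : ℝ) : ℂ) -
        (κ : ℂ) * ∑ z : H.Z, (∑ y, b y z) * ∑ f ∈ RRL c (cjF Fr s) φb E M (T0 ε Y) Y,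
          om (ZZ D Y \ E) (fun v x => H.w z x (φG ((cjF Fr s).F v))) f‖ ≤
        Y * (Real.log Y)⁻¹

/-- the data of a fibre -/
structure Fib (L : LDs D QBar) (c : CL p N P) (φb φ' : Gal(QBar/K) →* P) (E : Finset (Pl K)) :
    Prop where
  ft : FT φb
  sj : Function.Surjective φb
  gd : ∀ v ∈ E, D.Gd v
  un : ∀ v, v ∉ D.S0 → v ∉ E → φb (L.t v) = 1
  lab : ∀ v ∈ E, ∃ j, IsConj (φb (L.t v)) (c.g j)
  ft' : FT φ'
  eq : ∀ σ, (φb σ)⁻¹ * φ' σ ∈ Tc c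

/-- chapter B for all fibres and types -/
def EQs [Fintype P] (D : RD0 K p ζ) (c : CL p N P) (n : ℕ) (z : K) (κ₁ : ℕ) : Prop :=
  ∀ (L : LDs D QBar) (_ : NL n z L) (Fr : FR L) (Q : DP K QBar) (_ : LQ L Q)
    (φb φ' : Gal(QBar/K) →* P) (E : Finset (Pl K)), Fib L c φb φ' E →
    EQ1 L Fr Q c φb φ' E κ₁

/-- D5 (b) for one fibre and one type -/
def NR1 (L : LDs D QBar) (Fr : FR L) (Q : DP K QBar) (c : CL p N P)
    (φb φ' : Gal(QBar/K) →* P) (E : Finset (Pl K)) : Prop :=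
  ∀ (x : Px c) (z : ℝ), 0 < z → z < 1 → ∃ (B : ℝ) (M₀ : ℕ), 0 ≤ B ∧ ∀ M : ℕ, M₀ ≤ M →
    ∀ ε : ℝ, 0 < ε → ε < 1 → ∃ C : ℝ, Gpl p Fr E fun Y s =>
      ∑ᶠ φ ∈ {φ | φ ∈ FS L Fr Q c φb φ' E Y ∧ Rch L c E M ε Y φ},
          z ^ rn c (cjF Fr s) φb E (T0 ε Y) x φ ≤
        C * Y * Real.log Y ^ ((N : ℝ) - 1 - (1 - z) / Nat.card P + B * ε)

/-- D5 (b) for all fibres and types -/
def NRs (D : RD0 K p ζ) (c : CL p N P) (n : ℕ) (z : K) : Prop :=
  ∀ (L : LDs D QBar) (_ : NL n z L) (Fr : FR L) (Q : DP K QBar) (_ : LQ L Q)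
    (φb φ' : Gal(QBar/K) →* P) (E : Finset (Pl K)), Fib L c φb φ' E →
    NR1 L Fr Q c φb φ' E

/-- the asymptotic formula, for places normalised by `z` -/
def LmT (D : RD0 K p ζ) (c : CL p N P) (n : ℕ) (z : K) : Prop :=
  ∀ (L : LDs D QBar) (_ : NL n z L) (Q : DP K QBar) (_ : LQ L Q) (φ₁ : Gal(QBar/K) →* P),
    FT φ₁ → ∃ l : ℝ, Tendsto (fun Y : ℝ => ((SYT L Q c (Tc c) φ₁ Y).ncard : ℝ) /
      (Y * Real.log Y ^ (N - 1))) atTop (𝓝 l)

/-- the positivity, for places normalised by `z` -/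
def PsT (D : RD0 K p ζ) (c : CL p N P) (n : ℕ) (z : K) : Prop :=
  ∀ (L : LDs D QBar) (_ : NL n z L) (Q : DP K QBar) (_ : LQ L Q) (φ₀ : Gal(QBar/K) →* P),
    FT φ₀ → Function.Surjective φ₀ → (∀ v, v ∉ D.S0 → ∀ τ ∈ inr L v, φ₀ τ = 1) →
    ∃ c₀ : ℝ, 0 < c₀ ∧ ∀ᶠ Y : ℝ in atTop,
      c₀ * (Y * Real.log Y ^ (N - 1)) ≤ ((SYT L Q c (Tc c) φ₀ Y).ncard : ℝ)

end fib

/-- the condition for `p = 2` -/
def C4 {p N : ℕ} {P : Type} [Group P] (c : CL p N P) : Prop :=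
  p ≠ 2 ∨ Subgroup.lowerCentralSeries (Tc c) 3 = ⊥

/-- chapter B for all `p`-groups -/
def EQ3 (p : ℕ) : Prop :=
  ∀ (P : Type) [Group P] [Fintype P] (_ : IsPGroup p P), ∃ n κ₁ : ℕ,
    ∀ (N : ℕ) (c : CL p N P) (_ : 1 ≤ N) (_ : C4 c)
      (K : IntermediateField ℚ QBar) [NumberField K] (ζ : K) (_ : IsPrimitiveRoot ζ p) (z : K)
      (_ : IsPrimitiveRoot z (p ^ (n + 1))) (_ : z ^ p ^ n = ζ) (D : RD K p ζ),
      EQs D.toRD0 c (n + 1) z κ₁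

/-- D5 (b) for all `p`-groups -/
def NR3 (p : ℕ) : Prop :=
  ∀ (P : Type) [Group P] [Fintype P] (_ : IsPGroup p P), ∃ n : ℕ,
    ∀ (N : ℕ) (c : CL p N P) (_ : 1 ≤ N)
      (K : IntermediateField ℚ QBar) [NumberField K] (ζ : K) (_ : IsPrimitiveRoot ζ p) (z : K)
      (_ : IsPrimitiveRoot z (p ^ (n + 1))) (_ : z ^ p ^ n = ζ) (D : RD K p ζ),
      NRs D.toRD0 c (n + 1) z

end H12.S3
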