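import Pool.Agent.H12.S3.Asm
import Pool.Agent.H12.S3.Shp
import Pool.Agent.H12.FB.Fin
import Pool.Agent.H35.S3.Nr3
import Pool.Agent.H51.F3.Pm
import Pool.Agent.H93.BX.Blz
import Pool.Agent.H93.BY.Blg

/-!
# [H12 S3 END] the end of chapters B and D: `APm3 p` (MP_b39724_nt, stage 3)
-/

set_option autoImplicit false

noncomputable section

namespace H12.S3

open H51.F3 H35.NS2

theorem apm3 {p : ℕ} (hp : p.Prime) : APm3 p := by
  intro P _ _ hP
  have := Fintype.ofFinite P
  exact asm hp (shp3 hp (H12.FB.eq3s p hp fun κ m => H93.BY.blg' hp κ m))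
    (H35.S3.nr3 hp (H93.BX.pbl hp)) (bl2_all hp) (gp2_all hp) P hP

end H12.S3
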