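import Pool.Agent.H12.S3.Fsx

/-!
# [H12 S3 FBR] decomposition of SYT into fibres and types (D7 of think 1710, without E and without tail)

* `fbr`: `SYT L Q c (Tc c) φ₁ Y` is the disjoint union over finitely many `i` of `FS L Fr Q c (φb i) (φ' i) (E i) (Y / ν i)`; all data are data of a fibre (`Fib`), `1 ≤ ν i`.
PROOF. `T = Tc c`, `π = mk' T`. Let `𝒮` (`Sx`) be the set of the `φ` which are in `SYT L Q c T φ₁ Y` for some `Y`. For `φ ∈ 𝒮`: the labels are in `T` (`IsConj (φ (t v)) (c.g j)`, `c.g j ∈ T` normal), so `π ∘ φ` is `Unz L ∅`;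
there are finitely many such homomorphisms to `P ⧸ T` (`hon_finU`).
BASE: for `ψ = π ∘ φ`, `φ ∈ 𝒮`, choose `b ψ ∈ 𝒮` with `π ∘ b ψ = ψ`, `e ψ` = the finite set of the `v ∉ S0` with `b ψ (t v) ≠ 1`.
RELATION on `𝒮`: `R φ φ*` iff `π ∘ φ = π ∘ φ*` and for every `v ∈ e (π ∘ φ)` there is `g ∈ T` with `φ (t v) = g φ*(t v) g⁻¹`, `φ (F v) = g φ*(F v) g⁻¹`. An equivalence relation with finitely many classes.
Let `ι` be the set of the classes, `φ' i` a representative, `φb i = b (π ∘ φ' i)`, `E i = e (π ∘ φ' i)`, `ν i` = product of the `nm v`, `v ∈ E i`, `φ' i (t v) ≠ 1`.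
CLAIM (`cls`): `{φ ∈ SYT Y | R φ (φ' i)} = FS .. (φb i) (φ' i) (E i) (Y / ν i)`.
-/

set_option autoImplicit false

open scoped NumberField
open IsDedekindDomain Filter Topology
open scoped Classical

noncomputable section

namespace H12.S3

open H38.ML H63.MA H38.BB H38.BG H57.PC H57.BRA H38.AS H77.WD H77.WE H77.GL H77.PC3 H77.S0T H77.FLD H77.PLF
  H35.CF H35.UB H35.AC H51.PF H51.AC2 H51.F3 H24.RK H62.BL H86.AP

section fbr

variable {K : IntermediateField ℚ QBar} [NumberField K] {p N : ℕ} {ζ : K} {D : RD0 K p ζ}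
  {P : Type} [Group P]

/-- the homomorphisms without the condition on the norm -/
private def Sx (L : LDs D QBar) (Q : DP K QBar) (c : CL p N P) (φ₁ : Gal(QBar/K) →* P) :
    Set (Gal(QBar/K) →* P) :=
  {φ | FT φ ∧ Function.Surjective φ ∧ TqT D.S0 Q (Tc c) φ φ₁ ∧
    ∀ v, v ∉ D.S0 → φ (L.t v) ≠ 1 → D.Gd v ∧ ∃ j, IsConj (φ (L.t v)) (c.g j)}

private theorem syt_iff [Finite P] (hp : p.Prime) (hζ : IsPrimitiveRoot ζ p) (L : LDs D QBar)
    (Q : DP K QBar) (hP : IsPGroup p P) (c : CL p N P) (φ₁ : Gal(QBar/K) →* P) (Y : ℝ)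
    (φ : Gal(QBar/K) →* P) : φ ∈ SYT L Q c (Tc c) φ₁ Y ↔ φ ∈ Sx L Q c φ₁ ∧
      ∀ X : Finset (Pl K), (∀ v ∈ X, v ∉ D.S0 ∧ φ (L.t v) ≠ 1) → nr X ≤ Y := by
  constructor
  · rintro ⟨h1, h2, h3, h4, h5⟩
    refine ⟨⟨h1, h2, h3, fun v hv hne => ?_⟩, fun X hX => ?_⟩
    · rcases h4 v hv with h | ⟨j, h⟩
      · exact absurd (h _ (t_in L hv)) hne
      · exact ⟨h.1, j, h.2.1⟩
    · exact h5 X fun v hv => ⟨(hX v hv).1, fun h => (hX v hv).2 (h _ (t_in L (hX v hv).1))⟩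
  · rintro ⟨⟨h1, h2, h3, h4⟩, h5⟩
    refine ⟨h1, h2, h3, fun v hv => ?_, fun X hX => ?_⟩
    · by_cases h : φ (L.t v) = 1
      · exact Or.inl ((unr_iff hp hζ L hP φ h1 hv).2 h)
      · obtain ⟨h6, j, h7⟩ := h4 v hv h
        exact Or.inr ⟨j, (tyc_iff hp hζ L hP c φ h1 j v).2 ⟨h6, h7⟩⟩
    · exact h5 X fun v hv => ⟨(hX v hv).1, fun h => (hX v hv).2
        ((unr_iff hp hζ L hP φ h1 (hX v hv).1).2 h)⟩

/-- the image modulo `Tc c` -/
private def ky (c : CL p N P) (φ : Gal(QBar/K) →* P) : Gal(QBar/K) →* P ⧸ Tc c :=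
  (QuotientGroup.mk' (Tc c)).comp φ

omit [NumberField K] in
private theorem ky_eq (c : CL p N P) (φ φ' : Gal(QBar/K) →* P) :
    ky c φ = ky c φ' ↔ ∀ σ, (φ σ)⁻¹ * φ' σ ∈ Tc c := by
  constructor
  · intro h σ
    have h1 : ((φ σ : P) : P ⧸ Tc c) = ((φ' σ : P) : P ⧸ Tc c) := DFunLike.congr_fun h σ
    exact QuotientGroup.eq.1 h1
  · intro h
    refine MonoidHom.ext fun σ => ?_
    change ((φ σ : P) : P ⧸ Tc c) = ((φ' σ : P) : P ⧸ Tc c)
    exact QuotientGroup.eq.2 (h σ)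

omit [NumberField K] in
private theorem cj_mem (c : CL p N P) {x : P} {j : Fin N} (h : IsConj x (c.g j)) : x ∈ Tc c := by
  obtain ⟨g, hg⟩ := isConj_iff.1 h.symm
  rw [← hg]
  exact Subgroup.normalClosure_normal.conj_mem _ (Subgroup.subset_normalClosure (Set.mem_range_self j)) g

private theorem ky_unz (L : LDs D QBar) (Q : DP K QBar) (c : CL p N P) (φ₁ : Gal(QBar/K) →* P)
    {φ : Gal(QBar/K) →* P} (h : φ ∈ Sx L Q c φ₁) : Unz L ∅ (ky c φ) := by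
  refine ⟨ft_comp _ h.1, fun v hv _ => ?_⟩
  by_cases h1 : φ (L.t v) = 1
  · change (QuotientGroup.mk' (Tc c)) (φ (L.t v)) = 1
    rw [h1, map_one]
  · obtain ⟨-, j, hj⟩ := h.2.2.2 v hv h1
    exact (QuotientGroup.eq_one_iff _).2 (cj_mem c hj)

/-- equal types at the primes of `E` -/
private def Rt (L : LDs D QBar) (Fr : FR L) (c : CL p N P) (E : Finset (Pl K))
    (φ φ' : Gal(QBar/K) →* P) : Prop :=
  ∀ v ∈ E, ∃ g ∈ Tc c, φ (L.t v) = g * φ' (L.t v) * g⁻¹ ∧ φ (Fr.F v) = g * φ' (Fr.F v) * g⁻¹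

private theorem rt_refl (L : LDs D QBar) (Fr : FR L) (c : CL p N P) (E : Finset (Pl K))
    (φ : Gal(QBar/K) →* P) : Rt L Fr c E φ φ := fun _ _ =>
  ⟨1, (Tc c).one_mem, by rw [one_mul, inv_one, mul_one], by rw [one_mul, inv_one, mul_one]⟩

private theorem rt_symm {L : LDs D QBar} {Fr : FR L} {c : CL p N P} {E : Finset (Pl K)}
    {φ φ' : Gal(QBar/K) →* P} (h : Rt L Fr c E φ φ') : Rt L Fr c E φ' φ := by
  intro v hv
  obtain ⟨g, hg, h1, h2⟩ := h v hv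
  refine ⟨g⁻¹, (Tc c).inv_mem hg, ?_, ?_⟩
  · rw [h1]
    group
  · rw [h2]
    group

private theorem rt_trans {L : LDs D QBar} {Fr : FR L} {c : CL p N P} {E : Finset (Pl K)}
    {φ φ' φ'' : Gal(QBar/K) →* P} (h : Rt L Fr c E φ φ') (h' : Rt L Fr c E φ' φ'') :
    Rt L Fr c E φ φ'' := by
  intro v hv
  obtain ⟨g, hg, h1, h2⟩ := h v hv
  obtain ⟨g', hg', h3, h4⟩ := h' v hv
  refine ⟨g * g', (Tc c).mul_mem hg hg', ?_, ?_⟩
  · rw [h1, h3]
    group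
  · rw [h2, h4]
    group

private theorem cj_ne {x y g : P} (h : x = g * y * g⁻¹) : x ≠ 1 ↔ y ≠ 1 := by
  rw [h]
  exact not_congr conj_eq_one_iff

private theorem nr_union {X Y : Finset (Pl K)} (h : Disjoint X Y) : nr (X ∪ Y) = nr X * nr Y := by
  unfold nr
  exact Finset.prod_union h

/-- the classes are the sets `FS` -/
private theorem cls (L : LDs D QBar) (Fr : FR L) (Q : DP K QBar) (c : CL p N P)
    (φ₁ φb φ' : Gal(QBar/K) →* P) (E : Finset (Pl K))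
    (h' : φ' ∈ Sx L Q c φ₁) (hk : ky c φb = ky c φ')
    (hE : ∀ v, v ∈ E ↔ v ∉ D.S0 ∧ φb (L.t v) ≠ 1) (Y : ℝ) (φ : Gal(QBar/K) →* P) :
    φ ∈ FS L Fr Q c φb φ' E (Y / nr (E.filter fun v => φ' (L.t v) ≠ 1)) ↔
      (φ ∈ Sx L Q c φ₁ ∧ ∀ X : Finset (Pl K), (∀ v ∈ X, v ∉ D.S0 ∧ φ (L.t v) ≠ 1) → nr X ≤ Y) ∧
      ky c φ = ky c φ' ∧ Rt L Fr c E φ φ' := by
  set E' := E.filter fun v => φ' (L.t v) ≠ 1 with hE'
  have hν : 0 < nr E' := by
    have := one_le_nr E'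
    linarith
  constructor
  · rintro ⟨h1, h2, h3, h4, h5, h6, h7⟩
    refine ⟨⟨⟨h1, h2, tqt_trans h4 h'.2.2.1, fun v hv hne => ?_⟩, fun X hX => ?_⟩, ?_, h5⟩
    · by_cases hvE : v ∈ E
      · obtain ⟨g, -, hg, -⟩ := h5 v hvE
        obtain ⟨h8, j, h9⟩ := h'.2.2.2 v hv ((cj_ne hg).1 hne)
        refine ⟨h8, j, ?_⟩
        refine IsConj.trans (isConj_iff.2 ⟨g⁻¹, ?_⟩) h9
        rw [hg]
        group
      · exact h6 v hv hvE hne
    · have e1 : X = (X.filter fun v => v ∉ E) ∪ (X.filter fun v => v ∈ E) := by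
        ext v
        simp only [Finset.mem_union, Finset.mem_filter]
        tauto
      have e2 : Disjoint (X.filter fun v => v ∉ E) (X.filter fun v => v ∈ E) := by
        rw [Finset.disjoint_left]
        intro v hv hv'
        exact (Finset.mem_filter.1 hv).2 (Finset.mem_filter.1 hv').2
      rw [e1, nr_union e2]
      have h8 : nr (X.filter fun v => v ∉ E) ≤ Y / nr E' := h7 _ fun v hv => by
        obtain ⟨h9, h10⟩ := Finset.mem_filter.1 hv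
        exact ⟨(hX v h9).1, h10, (hX v h9).2⟩
      have h9 : nr (X.filter fun v => v ∈ E) ≤ nr E' := by
        refine nr_mono fun v hv => ?_
        obtain ⟨h10, h11⟩ := Finset.mem_filter.1 hv
        obtain ⟨g, -, hg, -⟩ := h5 v h11
        exact Finset.mem_filter.2 ⟨h11, (cj_ne hg).1 (hX v h10).2⟩
      have h10 : 0 ≤ nr (X.filter fun v => v ∉ E) := by
        have := one_le_nr (X.filter fun v => v ∉ E)
        linarith
      calc nr (X.filter fun v => v ∉ E) * nr (X.filter fun v => v ∈ E)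
          ≤ (Y / nr E') * nr E' := mul_le_mul h8 h9 (by
            have := one_le_nr (X.filter fun v => v ∈ E)
            linarith) (h10.trans h8)
        _ = Y := div_mul_cancel₀ _ hν.ne'
    · rw [← hk]
      exact ((ky_eq c φb φ).2 h3).symm
  · rintro ⟨⟨⟨h1, h2, h3, h4⟩, h5⟩, h6, h7⟩
    refine ⟨h1, h2, ?_, tqt_trans h3 (tqt_symm h'.2.2.1), h7, fun v hv _ hne => h4 v hv hne,
      fun X hX => ?_⟩
    · exact (ky_eq c φb φ).1 (hk.trans h6.symm)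
    · rw [le_div_iff₀ hν, ← nr_union]
      · refine h5 _ fun v hv => ?_
        rcases Finset.mem_union.1 hv with h8 | h8
        · exact ⟨(hX v h8).1, (hX v h8).2.2⟩
        · obtain ⟨h9, h10⟩ := Finset.mem_filter.1 h8
          obtain ⟨g, -, hg, -⟩ := h7 v h9
          exact ⟨((hE v).1 h9).1, (cj_ne hg).2 h10⟩
      · rw [Finset.disjoint_left]
        intro v hv hv'
        exact (hX v hv).2.1 (Finset.mem_filter.1 hv').1

theorem fbr {K : IntermediateField ℚ QBar} [NumberField K] {p N : ℕ} {ζ : K} (hp : p.Prime)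
    (_hM1 : MOne p K) (hζ : IsPrimitiveRoot ζ p) {P : Type} [Group P] [Finite P] (hP : IsPGroup p P)
    {D : RD0 K p ζ} (L : LDs D QBar) (Fr : FR L) (Q : DP K QBar) (c : CL p N P)
    (φ₁ : Gal(QBar/K) →* P) :
    ∃ (ι : Type) (_ : Fintype ι) (φb φ' : ι → Gal(QBar/K) →* P) (E : ι → Finset (Pl K))
      (ν : ι → ℝ), (∀ i, Fib L c (φb i) (φ' i) (E i)) ∧ (∀ i, 1 ≤ ν i) ∧ ∀ Y : ℝ,
      (SYT L Q c (Tc c) φ₁ Y).Finite ∧ (SYT L Q c (Tc c) φ₁ Y).ncard =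
        ∑ i, (FS L Fr Q c (φb i) (φ' i) (E i) (Y / ν i)).ncard := by
  -- the base points
  let b : (Gal(QBar/K) →* P ⧸ Tc c) → (Gal(QBar/K) →* P) := fun ψ =>
    if h : ∃ φ, φ ∈ Sx L Q c φ₁ ∧ ky c φ = ψ then h.choose else 1
  have hb : ∀ φ ∈ Sx L Q c φ₁, b (ky c φ) ∈ Sx L Q c φ₁ ∧ ky c (b (ky c φ)) = ky c φ := by
    intro φ hφ
    have h : ∃ φ', φ' ∈ Sx L Q c φ₁ ∧ ky c φ' = ky c φ := ⟨φ, hφ, rfl⟩
    have h1 : b (ky c φ) = h.choose := dif_pos h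
    rw [h1]
    exact h.choose_spec
  let e : (Gal(QBar/K) →* P ⧸ Tc c) → Finset (Pl K) := fun ψ =>
    if h : {v : Pl K | v ∉ D.S0 ∧ b ψ (L.t v) ≠ 1}.Finite then h.toFinset else ∅
  have he : ∀ φ ∈ Sx L Q c φ₁, ∀ v, v ∈ e (ky c φ) ↔ v ∉ D.S0 ∧ b (ky c φ) (L.t v) ≠ 1 := by
    intro φ hφ v
    have h : {v : Pl K | v ∉ D.S0 ∧ b (ky c φ) (L.t v) ≠ 1}.Finite :=
      ram_finite hp D L _ (hb φ hφ).1.1
    have h1 : e (ky c φ) = h.toFinset := dif_pos h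
    rw [h1, Set.Finite.mem_toFinset]
    rfl
  -- finitely many keys
  obtain ⟨A⟩ := gs_exists hp hζ D QBar
  have hfin := hon_finU hp hζ L A ∅ (P ⧸ Tc c)
  have hPq : IsPGroup p (P ⧸ Tc c) := hP.to_quotient _
  have hkf : ∀ φ ∈ Sx L Q c φ₁, ky c φ ∈ hfin.toFinset := fun φ hφ => by
    rw [Set.Finite.mem_toFinset]
    exact ⟨ky_unz L Q c φ₁ hφ, hPq.to_subgroup _⟩
  let E₀ : Finset (Pl K) := hfin.toFinset.biUnion e
  -- the relation
  let s : Setoid (Sx L Q c φ₁) :=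
    { r := fun φ φ' => ky c φ.1 = ky c φ'.1 ∧ Rt L Fr c (e (ky c φ.1)) φ.1 φ'.1
      iseqv := ⟨fun φ => ⟨rfl, rt_refl L Fr c _ φ.1⟩, fun {φ φ'} h => ⟨h.1.symm, by
        rw [← h.1]
        exact rt_symm h.2⟩, fun {φ φ' φ''} h h' => ⟨h.1.trans h'.1, by
        refine rt_trans h.2 ?_
        rw [h.1]
        exact h'.2⟩⟩ }
  let G : Sx L Q c φ₁ → hfin.toFinset × (E₀ → P × P) := fun φ =>
    (⟨ky c φ.1, hkf φ.1 φ.2⟩, fun v => (φ.1 (L.t v), φ.1 (Fr.F v)))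
  have hG : ∀ φ φ' : Sx L Q c φ₁, G φ = G φ' → s.r φ φ' := by
    intro φ φ' h
    have h1 : ky c φ.1 = ky c φ'.1 := congrArg (fun x => (x.1 : Gal(QBar/K) →* P ⧸ Tc c)) h
    refine ⟨h1, fun v hv => ?_⟩
    have hv0 : v ∈ E₀ := Finset.mem_biUnion.2 ⟨_, hkf φ.1 φ.2, hv⟩
    have h2 := congrFun (congrArg Prod.snd h) ⟨v, hv0⟩
    have h3 : φ.1 (L.t v) = φ'.1 (L.t v) := congrArg Prod.fst h2
    have h4 : φ.1 (Fr.F v) = φ'.1 (Fr.F v) := congrArg Prod.snd h2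
    exact ⟨1, (Tc c).one_mem, by rw [h3, one_mul, inv_one, mul_one],
      by rw [h4, one_mul, inv_one, mul_one]⟩
  have : Finite (Quotient s) := Finite.of_injective (fun q : Quotient s => G q.out)
    fun q q' h => by
      rw [← q.out_eq, ← q'.out_eq]
      exact Quotient.sound (hG _ _ h)
  have : Fintype (Quotient s) := Fintype.ofFinite _
  have hk : ∀ q : Quotient s, ky c (b (ky c q.out.1)) = ky c q.out.1 := fun q =>
    (hb _ q.out.2).2
  refine ⟨Quotient s, inferInstance, fun q => b (ky c q.out.1), fun q => q.out.1,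
    fun q => e (ky c q.out.1), fun q => nr ((e (ky c q.out.1)).filter fun v =>
      q.out.1 (L.t v) ≠ 1), fun q => ?_, fun q => one_le_nr _, fun Y => ?_⟩
  · obtain ⟨h1, h2⟩ := hb _ q.out.2
    have h3 := he _ q.out.2
    refine ⟨h1.1, h1.2.1, fun v hv => ?_, fun v hv hvE => ?_, fun v hv => ?_, q.out.2.1,
      (ky_eq c _ _).1 h2⟩
    · obtain ⟨h4, h5⟩ := (h3 v).1 hv
      exact (h1.2.2.2 v h4 h5).1
    · by_contra h4
      exact hvE ((h3 v).2 ⟨hv, h4⟩)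
    · obtain ⟨h4, h5⟩ := (h3 v).1 hv
      exact (h1.2.2.2 v h4 h5).2
  · have hcl : ∀ (q : Quotient s) (φ : Gal(QBar/K) →* P),
        φ ∈ FS L Fr Q c (b (ky c q.out.1)) q.out.1 (e (ky c q.out.1))
          (Y / nr ((e (ky c q.out.1)).filter fun v => q.out.1 (L.t v) ≠ 1)) ↔
        φ ∈ SYT L Q c (Tc c) φ₁ Y ∧ ∃ h : φ ∈ Sx L Q c φ₁, (⟦⟨φ, h⟩⟧ : Quotient s) = q := by
      intro q φ
      rw [cls L Fr Q c φ₁ _ _ _ q.out.2 (hk q) (he _ q.out.2) Y φ,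
        syt_iff hp hζ L Q hP c φ₁ Y φ]
      constructor
      · rintro ⟨h1, h2, h3⟩
        refine ⟨h1, h1.1, ?_⟩
        rw [← q.out_eq]
        refine Quotient.sound ⟨h2, ?_⟩
        change Rt L Fr c (e (ky c φ)) φ q.out.1
        rw [h2]
        exact h3
      · rintro ⟨h1, h2, h3⟩
        have h4 : s.r ⟨φ, h2⟩ q.out := by
          refine Quotient.exact ?_
          rw [h3, q.out_eq]
        refine ⟨h1, h4.1, ?_⟩
        have h5 : Rt L Fr c (e (ky c φ)) φ q.out.1 := h4.2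
        have h6 : ky c φ = ky c q.out.1 := h4.1
        rwa [h6] at h5
    have hSf : (SYT L Q c (Tc c) φ₁ Y).Finite := by
      rcases lt_or_ge Y 1 with h | h
      · refine Set.Finite.subset Set.finite_empty ?_
        intro φ hφ
        have h1 := hφ.2.2.2.2 ∅ fun v hv => absurd hv (Finset.notMem_empty v)
        rw [Finset.prod_empty] at h1
        linarith
      · obtain ⟨_, _, -, -, htr⟩ := trv hp hζ hP L c
        exact (htr ∅ Y h).1.subset (syt_sub L Q c (Tc c) φ₁ Y)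
    refine ⟨hSf, ?_⟩
    have hU : SYT L Q c (Tc c) φ₁ Y = ⋃ q : Quotient s,
        FS L Fr Q c (b (ky c q.out.1)) q.out.1 (e (ky c q.out.1))
          (Y / nr ((e (ky c q.out.1)).filter fun v => q.out.1 (L.t v) ≠ 1)) := by
      ext φ
      rw [Set.mem_iUnion]
      constructor
      · intro h
        have h1 := ((syt_iff hp hζ L Q hP c φ₁ Y φ).1 h).1
        exact ⟨⟦⟨φ, h1⟩⟧, (hcl _ φ).2 ⟨h, h1, rfl⟩⟩
      · rintro ⟨q, h⟩
        exact ((hcl q φ).1 h).1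
    have hF : ∀ q : Quotient s, (FS L Fr Q c (b (ky c q.out.1)) q.out.1 (e (ky c q.out.1))
          (Y / nr ((e (ky c q.out.1)).filter fun v => q.out.1 (L.t v) ≠ 1))).Finite := fun q =>
      hSf.subset fun φ h => ((hcl q φ).1 h).1
    rw [hU, Set.ncard_iUnion_of_finite hF, finsum_eq_sum_of_fintype]
    intro q q' hqq
    rw [Function.onFun, Set.disjoint_left]
    intro φ h h'
    obtain ⟨-, h1, h2⟩ := (hcl q φ).1 h
    obtain ⟨-, h3, h4⟩ := (hcl q' φ).1 h'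
    exact hqq (h2.symm.trans h4)

end fbr

end H12.S3
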